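import Pool.Agent.H740R3.BQStmts

set_option autoImplicit false

open Finset

namespace Pool.Agent.H833R3.BQ1b

open Pool.Agent.H740R3.BQ

theorem coeff_sum_range (N : ℕ) (f : ℕ → ℂ) (m : ℕ) :
    (∑ j ∈ range N, Polynomial.C (f j) * Polynomial.X ^ j : Polynomial ℂ).coeff m =
      if m < N then f m else 0 := by
  rw [Polynomial.finsetSum_coeff]
  simp only [Polynomial.coeff_C_mul, Polynomial.coeff_X_pow]
  by_cases h : m < N
  · rw [if_pos h, Finset.sum_eq_single m]
    · simp
    · intro b _ hb
      rw [if_neg (fun h' => hb h'.symm), mul_zero]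
    · intro h'
      exact absurd (Finset.mem_range.mpr h) h'
  · rw [if_neg h]
    apply Finset.sum_eq_zero
    intro b hb
    have : b < N := Finset.mem_range.mp hb
    rw [if_neg (by omega), mul_zero]

theorem degree_sum_range (N : ℕ) (f : ℕ → ℂ) :
    (∑ j ∈ range N, Polynomial.C (f j) * Polynomial.X ^ j : Polynomial ℂ).degree < N := by
  rw [Polynomial.degree_lt_iff_coeff_zero]
  intro m hm
  rw [coeff_sum_range, if_neg (by omega)]

theorem t1b : T1b := by
  intro hT d p0 hdet
  obtain ⟨v, hv, hGv⟩ := Matrix.exists_mulVec_eq_zero_iff.mpr hdet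
  apply hv
  set N : ℕ := 3 * d + 3 with hN
  have hD : 6 * d + 6 = N + N := by omega
  let V : ℕ → ℂ := fun k => if h : k < 6 * d + 6 then v ⟨k, h⟩ else 0
  have hV : ∀ k : Fin (6 * d + 6), V k = v k := by
    intro k
    simp only [V]
    rw [dif_pos k.2]
  let P1 : Polynomial ℂ := ∑ j ∈ range N, Polynomial.C (V (N + j)) * Polynomial.X ^ j
  let Q0 : Polynomial ℂ := ∑ j ∈ range N, Polynomial.C (V j) * Polynomial.X ^ j
  let P0 : Polynomial ℂ := Q0 - Polynomial.C p0 * P1
  have hP1c : ∀ m, P1.coeff m = if m < N then V (N + m) else 0 := coeff_sum_range N _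
  have hQ0c : ∀ m, Q0.coeff m = if m < N then V m else 0 := coeff_sum_range N _
  have hP0c : ∀ m, P0.coeff m = (if m < N then V m else 0) - p0 * (if m < N then V (N + m) else 0) := by
    intro m
    simp only [P0, Polynomial.coeff_sub, Polynomial.coeff_C_mul, hP1c, hQ0c]
  have hcong : (PowerSeries.X : PowerSeries ℂ) ^ (2 * N) ∣
      (P0 : PowerSeries ℂ) + (P1 : PowerSeries ℂ) * PowerSeries.exp ℂ := by
    rw [PowerSeries.X_pow_dvd_iff]
    intro i hi
    have hi' : i < 6 * d + 6 := by omega
    have h1 := congrFun hGv ⟨i, hi'⟩
    simp only [Matrix.mulVec, dotProduct, Pi.zero_apply] at h1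
    have h2 : ∑ k : Fin (6 * d + 6), GM d (dinf p0) ⟨i, hi'⟩ k * v k =
        ∑ k ∈ range (6 * d + 6), (if k < N then (if i = k then 1 else 0)
          else (if k - N ≤ i then dinf p0 (i - (k - N)) else 0)) * V k := by
      rw [Finset.sum_range]
      apply Finset.sum_congr rfl
      intro k _
      rw [hV k]
      rfl
    rw [h2, hD, Finset.sum_range_add] at h1
    have h3 : ∑ k ∈ range N, (if k < N then (if i = k then (1 : ℂ) else 0)
          else (if k - N ≤ i then dinf p0 (i - (k - N)) else 0)) * V k =
        if i < N then V i else 0 := by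
      have h4 : ∀ k ∈ range N, (if k < N then (if i = k then (1 : ℂ) else 0)
          else (if k - N ≤ i then dinf p0 (i - (k - N)) else 0)) * V k =
          if i = k then V k else 0 := by
        intro k hk
        rw [if_pos (Finset.mem_range.mp hk)]
        split_ifs <;> simp
      rw [Finset.sum_congr rfl h4, Finset.sum_ite_eq]
      simp only [Finset.mem_range]
    have h5 : ∑ j ∈ range N, (if N + j < N then (if i = N + j then (1 : ℂ) else 0)
          else (if N + j - N ≤ i then dinf p0 (i - (N + j - N)) else 0)) * V (N + j) =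
        ∑ j ∈ range (i + 1), P1.coeff j * ((((i - j).factorial : ℕ) : ℂ)⁻¹) -
          p0 * (if i < N then V (N + i) else 0) := by
      have h6 : ∀ j ∈ range N, (if N + j < N then (if i = N + j then (1 : ℂ) else 0)
          else (if N + j - N ≤ i then dinf p0 (i - (N + j - N)) else 0)) * V (N + j) =
          (if j ≤ i then V (N + j) * ((((i - j).factorial : ℕ) : ℂ)⁻¹) else 0) -
            (if i = j then p0 * V (N + j) else 0) := by
        intro j _
        rw [if_neg (by omega), Nat.add_sub_cancel_left]
        by_cases hj : j ≤ i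
        · rw [if_pos hj, if_pos hj]
          unfold dinf
          by_cases hij : i = j
          · rw [if_pos hij, if_pos (by omega)]
            rw [one_div]
            ring
          · rw [if_neg hij, if_neg (by omega), one_div]
            ring
        · rw [if_neg hj, if_neg hj, if_neg (by omega)]
          ring
      rw [Finset.sum_congr rfl h6, Finset.sum_sub_distrib, Finset.sum_ite_eq]
      congr 1
      · rw [← Finset.sum_filter]
        have h7 : ∀ j ∈ range (i + 1), P1.coeff j * ((((i - j).factorial : ℕ) : ℂ)⁻¹) =
            if j < N then V (N + j) * ((((i - j).factorial : ℕ) : ℂ)⁻¹) else 0 := by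
          intro j _
          rw [hP1c]
          split_ifs
          · rfl
          · rw [zero_mul]
        rw [Finset.sum_congr rfl h7, ← Finset.sum_filter]
        apply Finset.sum_congr _ (fun _ _ => rfl)
        ext j
        simp only [Finset.mem_filter, Finset.mem_range]
        omega
      · simp only [Finset.mem_range]
        split_ifs
        · rfl
        · simp
    rw [h3, h5] at h1
    rw [map_add, PowerSeries.coeff_mul, Polynomial.coeff_coe, hP0c,
      Finset.Nat.sum_antidiagonal_eq_sum_range_succ
        (fun a b => PowerSeries.coeff a (P1 : PowerSeries ℂ) * PowerSeries.coeff b (PowerSeries.exp ℂ))]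
    have h8 : ∀ k ∈ range i.succ, PowerSeries.coeff k (P1 : PowerSeries ℂ) *
        PowerSeries.coeff (i - k) (PowerSeries.exp ℂ) =
        P1.coeff k * ((((i - k).factorial : ℕ) : ℂ)⁻¹) := by
      intro k _
      rw [Polynomial.coeff_coe, PowerSeries.coeff_exp]
      simp
    rw [Finset.sum_congr rfl h8]
    refine Eq.trans ?_ h1
    simp only [Nat.succ_eq_add_one]
    ring
  have key := hT 2 N (fun j => if j = 0 then P0 else if j = 1 then P1 else 0) (by
    intro j
    by_cases h0 : j = 0
    · simp only [h0, if_true]
      apply lt_of_le_of_lt (Polynomial.degree_sub_le _ _)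
      apply max_lt (degree_sum_range N _)
      refine lt_of_le_of_lt ?_ (degree_sum_range N (fun j => V (N + j)))
      refine le_trans (Polynomial.degree_mul_le _ _) ?_
      refine le_trans (add_le_add_left Polynomial.degree_C_le _) ?_
      simp [P1]
    · by_cases h1 : j = 1
      · simp only [h1, if_true, one_ne_zero, if_false]
        exact degree_sum_range N _
      · simp only [h0, h1, if_false, Polynomial.degree_zero]
        exact WithBot.bot_lt_coe N) (by
    rw [Finset.sum_range_succ, Finset.sum_range_one]
    simpa using hcong)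
  have k0 : P0 = 0 := by simpa using key 0 (by norm_num)
  have k1 : P1 = 0 := by simpa using key 1 (by norm_num)
  have hQ : Q0 = 0 := by
    have : P0 = Q0 - Polynomial.C p0 * P1 := rfl
    rw [k0, k1, mul_zero, sub_zero] at this
    exact this.symm
  funext k
  rw [← hV k, Pi.zero_apply]
  by_cases hk : (k : ℕ) < N
  · have h := hQ0c k
    rw [hQ, if_pos hk, Polynomial.coeff_zero] at h
    exact h.symm
  · have h := hP1c ((k : ℕ) - N)
    have hk2 := k.2
    rw [k1, if_pos (by omega), Polynomial.coeff_zero] at h
    rw [show N + ((k : ℕ) - N) = k by omega] at h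
    exact h.symm

end Pool.Agent.H833R3.BQ1b
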