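import Pool.Agent.H833R3.WC

set_option autoImplicit false

/-!
# Inaccessible cardinals and the first uncountable ordinal
-/

namespace Pool.Agent.H833R3.Levy

open Cardinal Set

theorem bounded_of_cof {α ι : Type} [LinearOrder α] (h : #ι < Order.cof α) (f : ι → α) :
    ∃ γ, ∀ i, f i < γ := by
  by_contra hcon
  push Not at hcon
  have h1 : IsCofinal (Set.range f) := fun γ => by
    obtain ⟨i, hi⟩ := hcon γ
    exact ⟨f i, ⟨i, rfl⟩, hi⟩
  exact absurd ((Order.cof_le h1).trans mk_range_le) (not_le.2 h)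

theorem inac_toType {κ : Cardinal.{0}} (h : κ.IsInaccessible) : Inac κ.ord.ToType where
  wf := inferInstance
  unc := by
    rw [mk_toType, card_ord, ← succ_aleph0]
    exact (Order.succ_le_of_lt (cantor ℵ₀)).trans_lt (h.isStrongPrelimit h.aleph0_lt)
  reg ι hι f := by
    refine bounded_of_cof ?_ f
    rw [Ordinal.cof_toType]
    rw [mk_toType, card_ord] at hι
    exact hι.trans_le h.le_cof_ord
  small γ := by
    rw [mk_toType, card_ord]
    exact mk_Iio_toType_ord_lt γ
  pow μ hμ := by
    rw [mk_toType, card_ord] at hμ ⊢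
    exact h.isStrongPrelimit hμ

/-- The well-ordered set `W` has order type `ω₁`. -/
structure Om (W : Type) [LinearOrder W] : Prop where
  wf : WellFoundedLT W
  card : #W = ℵ₁
  small : ∀ a : W, (Iic a).Countable
  bdd : ∀ A : Set W, A.Countable → ∃ w, ∀ a ∈ A, a < w

theorem om_toType : Om (ℵ₁ : Cardinal.{0}).ord.ToType where
  wf := inferInstance
  card := by rw [mk_toType, card_ord]
  small a := by
    have h0 : #(Iio a) < Order.succ ℵ₀ := (mk_Iio_toType_ord_lt a).trans_eq succ_aleph0.symm
    have h1 := mk_le_aleph0_iff.1 (Order.lt_succ_iff.1 h0)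
    have h2 : (Iic a) = insert a (Iio a) := by
      ext x
      simp [le_iff_eq_or_lt]
    rw [h2]
    exact (Set.countable_coe_iff.1 h1).insert a
  bdd A hA := by
    obtain ⟨w, hw⟩ := bounded_of_cof (α := (ℵ₁ : Cardinal.{0}).ord.ToType) (ι := A) (by
      rw [Ordinal.cof_toType, isRegular_aleph_one.cof_ord]
      exact (mk_le_aleph0_iff.2 hA).trans_lt aleph0_lt_aleph_one) (fun a => a.1)
    exact ⟨w, fun a ha => hw ⟨a, ha⟩⟩

end Pool.Agent.H833R3.Levy
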