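import Pool.Agent.H833R3.Core

set_option autoImplicit false

/-!
# The family of the functions used for promises
-/

namespace Pool.Agent.H833R3.Levy

open Cardinal Set Filter

variable {K W : Type} [LinearOrder K]

theorem pow_aleph0_le (hK : Inac K) : #K ^ ℵ₀ ≤ #K := by
  have h1 : #K ^ ℵ₀ = #(ℕ → K) := by simp
  rw [h1]
  have h2 : (Set.univ : Set (ℕ → K)) ⊆ ⋃ γ : K, {f | ∀ n, f n < γ} := by
    intro f _
    obtain ⟨γ, hγ⟩ := hK.reg ℕ (by simpa using hK.aleph0_lt) f
    exact Set.mem_iUnion.2 ⟨γ, hγ⟩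
  have h3 : #(ℕ → K) ≤ Cardinal.sum fun γ : K => #{f : ℕ → K | ∀ n, f n < γ} := by
    rw [← mk_univ]
    exact (mk_le_mk_of_subset h2).trans mk_iUnion_le_sum_mk
  refine h3.trans ((Cardinal.sum_le_sum _ (fun _ => #K) fun γ => ?_).trans ?_)
  · have h4 : #{f : ℕ → K | ∀ n, f n < γ} ≤ #(ℕ → Iio γ) := by
      refine mk_le_of_injective (f := fun f n => ⟨f.1 n, f.2 n⟩) ?_
      rintro ⟨f, hf⟩ ⟨g, hg⟩ h
      refine Subtype.ext (funext fun n => ?_)
      exact congrArg (fun z : ℕ → Iio γ => (z n).1) h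
    refine h4.trans ?_
    have h5 : #(ℕ → Iio γ) ≤ #(ℕ × Iio γ → Prop) := by
      refine mk_le_of_injective (f := fun f x => f x.1 = x.2) ?_
      intro f g h
      funext n
      have := congrFun h (n, g n)
      simpa using this
    refine h5.trans ?_
    have h6 : #(ℕ × Iio γ → Prop) = 2 ^ (ℵ₀ * #(Iio γ)) := by simp
    rw [h6]
    exact (hK.pow _ (mul_lt_of_lt hK.aleph0_lt.le hK.aleph0_lt (hK.small γ))).le
  · simp only [Cardinal.sum_const, lift_id]
    exact (mul_eq_self hK.aleph0_lt.le).le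

theorem mk_cond_le (hK : Inac K) (hW : #W < #K) : #(Cond K W) ≤ #K := by
  have hcnt : ∀ p : Cond K W, {z : (K × W) × K | p.f z.1 = some z.2}.Countable := by
    intro p
    have h1 : {z : (K × W) × K | p.f z.1 = some z.2} ⊆
        (fun x : K × W => (x, (p.f x).getD x.1)) '' {x | p.f x ≠ none} := by
      rintro ⟨x, y⟩ h
      simp only [mem_ofPred_eq] at h
      exact ⟨x, by simp [h], by simp [h]⟩
    exact (p.cnt.image _).mono h1
  have hen : ∀ p : Cond K W, ∃ e : ℕ → Option ((K × W) × K), ∀ z, (∃ n, e n = some z) ↔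
      p.f z.1 = some z.2 := by
    intro p
    obtain ⟨e, he⟩ := ((hcnt p).image some |>.union (Set.countable_singleton none)).exists_eq_range
      ⟨none, Or.inr rfl⟩
    refine ⟨e, fun z => ?_⟩
    have h1 : (∃ n, e n = some z) ↔ some z ∈ Set.range e := Iff.rfl
    rw [h1, ← he]
    constructor
    · rintro (⟨z', h, h'⟩ | h)
      · have : z' = z := by simpa using h'
        exact this ▸ h
      · simp at h
    · intro h
      exact Or.inl ⟨z, h, rfl⟩
  choose e he using hen
  have hinj : Function.Injective e := by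
    intro p q h
    have h1 : p.f = q.f := by
      funext x
      have h2 : ∀ y, p.f x = some y ↔ q.f x = some y := fun y => by
        rw [← he p (x, y), ← he q (x, y), h]
      rcases h3 : q.f x with _ | y
      · rcases h4 : p.f x with _ | y
        · rfl
        · have := (h2 y).1 h4
          rw [h3] at this
          exact absurd this (by simp)
      · exact (h2 y).2 h3
    rcases p with ⟨pf, _, _⟩
    rcases q with ⟨qf, _, _⟩
    simp only at h1
    subst h1
    rfl
  refine (mk_le_of_injective hinj).trans ?_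
  have h1 : #(Option ((K × W) × K)) ≤ #K := by
    simp only [mk_option, mk_prod, lift_id]
    have h2 : #K * #W ≤ #K := mul_le_of_le hK.aleph0_lt.le le_rfl hW.le
    exact add_le_of_le hK.aleph0_lt.le (mul_le_of_le hK.aleph0_lt.le h2 le_rfl)
      (one_lt_aleph0.le.trans hK.aleph0_lt.le)
  calc #(ℕ → Option ((K × W) × K)) = #(Option ((K × W) × K)) ^ ℵ₀ := by simp
    _ ≤ #K ^ ℵ₀ := power_le_power_right h1
    _ ≤ #K := pow_aleph0_le hK

/-- the shapes of the terms -/
abbrev Sh (K W : Type) [LinearOrder K] : Type := (Cond K W ⊕ Cond K W) ⊕ (Unit ⊕ K)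

/-- the arities of the terms -/
def Ar : Sh K W → Type
  | .inl (.inl _) => Empty
  | .inl (.inr _) => Unit
  | .inr (.inl _) => ℕ
  | .inr (.inr _) => Unit

/-- The value of a term. `D α p` is a decision of the colours of `{α, β}` below `p`. -/
noncomputable def ev (D : K → K → Cond K W → Cond K W) : WType (Ar (K := K) (W := W)) →
    K → Cond K W
  | ⟨.inl (.inl p), _⟩ => fun _ => p
  | ⟨.inl (.inr p), a⟩ => fun β => join p (ev D (a ()) β)
  | ⟨.inr (.inl _), a⟩ => fun β => lim fun n => ev D (a n) β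
  | ⟨.inr (.inr α), a⟩ => fun β => D α β (ev D (a ()) β)

theorem mk_term_le (hK : Inac K) (hW : #W < #K) : #(WType (Ar (K := K) (W := W))) ≤ #K := by
  have hne : #K ≠ 0 := (aleph0_pos.trans hK.aleph0_lt).ne'
  refine WType.cardinalMk_le_of_le ((Cardinal.sum_le_sum _ (fun _ => #K) fun a => ?_).trans ?_)
  · refine le_trans (power_le_power_left hne ?_) (pow_aleph0_le hK)
    rcases a with (_ | _) | (_ | _)
    · exact mk_le_aleph0_iff.2 (inferInstanceAs (Countable Empty))
    · exact mk_le_aleph0_iff.2 (inferInstanceAs (Countable Unit))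
    · exact mk_le_aleph0_iff.2 (inferInstanceAs (Countable ℕ))
    · exact mk_le_aleph0_iff.2 (inferInstanceAs (Countable Unit))
  · simp only [Cardinal.sum_const, lift_id]
    refine mul_le_of_le hK.aleph0_lt.le ?_ le_rfl
    have h1 := mk_cond_le (W := W) hK hW
    simp only [mk_sum, lift_id]
    refine add_le_of_le hK.aleph0_lt.le (add_le_of_le hK.aleph0_lt.le h1 h1)
      (add_le_of_le hK.aleph0_lt.le ?_ le_rfl)
    simpa using one_lt_aleph0.le.trans hK.aleph0_lt.le

/-- There are a complete filter `F` and a family `T` with the closure properties. -/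
theorem exists_closed (hK : Inac K) (hP : PairPart K) (hW : #W < #K)
    {C : Cond K W → K → K → ℕ → Prop} {p₀ : Cond K W}
    (hdec : ∀ p ≤ p₀, ∀ α β, α < β → ∃ q ≤ p, ∃ n, C q α β n) :
    ∃ F : Filter K, ∃ T : Set (K → Cond K W), Compl F ∧ Closed F C T p₀ := by
  classical
  have hD : ∀ (α β : K) (p : Cond K W), ∃ q ≤ p, p ≤ p₀ → α < β → ∃ n, C q α β n := by
    intro α β p
    by_cases h : p ≤ p₀ ∧ α < β
    · obtain ⟨q, hq, h1⟩ := hdec p h.1 α β h.2
      exact ⟨q, hq, fun _ _ => h1⟩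
    · exact ⟨p, le_rfl, fun h1 h2 => absurd ⟨h1, h2⟩ h⟩
  choose D hD1 hD2 using hD
  let T : Set (K → Cond K W) := Set.range (ev D)
  have hTc : #T ≤ #K := mk_range_le.trans (mk_term_le hK hW)
  let I := (T × (K × W) × Option K) ⊕ (T × K × ℕ)
  have hI : #I ≤ #K := by
    simp only [I, mk_sum, mk_prod, lift_id, mk_option, mk_nat]
    refine add_le_of_le hK.aleph0_lt.le ?_ ?_
    · refine mul_le_of_le hK.aleph0_lt.le hTc (mul_le_of_le hK.aleph0_lt.le ?_ ?_)
      · exact mul_le_of_le hK.aleph0_lt.le le_rfl hW.le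
      · exact add_le_of_le hK.aleph0_lt.le le_rfl (one_lt_aleph0.le.trans hK.aleph0_lt.le)
    · exact mul_le_of_le hK.aleph0_lt.le hTc (mul_le_of_le hK.aleph0_lt.le le_rfl
        hK.aleph0_lt.le)
  let S : I → Set K := fun i => match i with
    | .inl (f, x, o) => {β | (f.1 β).f x = o}
    | .inr (f, α, n) => {β | C (f.1 β) α β n}
  obtain ⟨F, hF, hFS⟩ := exists_filter hK hP hI S
  have hne := hF.ne
  refine ⟨F, T, hF, ⟨fun p => ?_, fun p f hf => ?_, fun s hs => ?_, fun f hf hle α => ?_,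
    fun f hf x => ?_⟩⟩
  · exact ⟨⟨.inl (.inl p), fun e => nomatch e⟩, by funext β; simp [ev]⟩
  · obtain ⟨a, rfl⟩ := hf
    exact ⟨⟨.inl (.inr p), fun _ => a⟩, by funext β; simp [ev]⟩
  · choose a ha using hs
    exact ⟨⟨.inr (.inl ()), a⟩, by funext β; simp [ev, ha]⟩
  · obtain ⟨a, rfl⟩ := hf
    refine ⟨fun β => D α β (ev D a β), ⟨⟨.inr (.inr α), fun _ => a⟩, by funext β; simp [ev]⟩,
      Eventually.of_forall fun β => hD1 _ _ _, ?_⟩
    have hmem : (fun β => D α β (ev D a β)) ∈ T :=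
      ⟨⟨.inr (.inr α), fun _ => a⟩, by funext β; simp [ev]⟩
    by_contra hcon
    have h1 : ∀ n, ∀ᶠ β in F, ¬ C (D α β (ev D a β)) α β n := fun n =>
      (hFS (.inr (⟨_, hmem⟩, α, n))).resolve_left fun h => hcon ⟨n, h⟩
    obtain ⟨β, h2, h3, h4⟩ := ((Compl.nat hK hF h1).and (hle.and (hF.tail α))).exists
    obtain ⟨n, hn⟩ := hD2 α β _ h3 h4
    exact h2 n hn
  · by_contra hcon
    have h1 : ∀ o : Option K, ∀ᶠ β in F, ¬ (f β).f x = o := fun o =>
      (hFS (.inl (⟨f, hf⟩, x, o))).resolve_left fun h => hcon ⟨o, h⟩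
    have h2 : #(Option (Iio x.1)) < #K := by
      rw [mk_option]
      exact add_lt_of_lt hK.aleph0_lt.le (hK.small _) (one_lt_aleph0.trans hK.aleph0_lt)
    obtain ⟨β, hβ⟩ := (hF.inter (Option (Iio x.1)) h2
      (fun o β => ¬ (f β).f x = o.map Subtype.val) fun o => h1 _).exists
    rcases h3 : (f β).f x with _ | y
    · exact hβ none h3
    · exact hβ (some ⟨y, (f β).lt x y h3⟩) h3

end Pool.Agent.H833R3.Levy
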