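import Pool.Agent.H833R3.Core2
import Pool.Agent.H833R3.Terms

set_option autoImplicit false

/-!
# The set `X` and its connectivity
-/

namespace Pool.Agent.H833R3.Levy

open Cardinal Set Filter

variable {K W : Type} [LinearOrder K]
variable {F : Filter K} {C : Cond K W → K → K → ℕ → Prop} {T : Set (K → Cond K W)}
  {p₀ : Cond K W}

section

variable (F C T) (f : ℕ → K → Cond K W) (n : ℕ)

/-- `t` puts `α` into `X`, at level `i` -/
def XX (i : ℕ) (α : K) (t : Cond K W) : Prop :=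
  ∃ g ∈ T, LEF F g (f i) ∧ Bel F t g ∧ Dec F C g α n

/-- `t` puts `α` into `X` -/
def InX (α : K) (t : Cond K W) : Prop := ∃ i, XX F C T f n i α t

end

variable (C) in
/-- `t` forces that `{a, b}` has colour `n` -/
def Edge (n : ℕ) (t : Cond K W) (a b : K) : Prop := (a < b ∧ C t a b n) ∨ (b < a ∧ C t b a n)

theorem Edge.symm {n : ℕ} {t : Cond K W} {a b : K} (h : Edge C n t a b) : Edge C n t b a := by
  rcases h with h | h
  · exact Or.inr h
  · exact Or.inl h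

theorem rtg_mono {α : Type} {r s : α → α → Prop} (h : ∀ a b, r a b → s a b) {a b : α}
    (hab : Relation.ReflTransGen r a b) : Relation.ReflTransGen s a b := by
  induction hab with
  | refl => exact Relation.ReflTransGen.refl
  | tail _ h2 ih => exact ih.tail (h _ _ h2)

theorem rtg_symm {α : Type} {r : α → α → Prop} (h : ∀ a b, r a b → r b a) {a b : α}
    (hab : Relation.ReflTransGen r a b) : Relation.ReflTransGen r b a := by
  induction hab with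
  | refl => exact Relation.ReflTransGen.refl
  | tail _ h2 ih => exact Relation.ReflTransGen.head (h _ _ h2) ih

variable {f : ℕ → K → Cond K W} {n : ℕ}

theorem XX.mono {i : ℕ} {α : K} {t t' : Cond K W} (h : XX F C T f n i α t) (ht : t' ≤ t) :
    XX F C T f n i α t' := by
  obtain ⟨g, h1, h2, h3, h4⟩ := h
  exact ⟨g, h1, h2, h3.mono ht, h4⟩

theorem InX.mono {α : K} {t t' : Cond K W} (h : InX F C T f n α t) (ht : t' ≤ t) :
    InX F C T f n α t' := ⟨h.choose, h.choose_spec.mono ht⟩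

variable (F C T f n) in
/-- one step of a path inside `S` -/
def Stp (S : Set K) (t : Cond K W) (a b : K) : Prop :=
  Edge C n t a b ∧ InX F C T f n a t ∧ InX F C T f n b t ∧ a ∈ S ∧ b ∈ S

theorem Stp.symm {S : Set K} {t : Cond K W} {a b : K} (h : Stp F C T f n S t a b) :
    Stp F C T f n S t b a := ⟨h.1.symm, h.2.2.1, h.2.1, h.2.2.2.2, h.2.2.2.1⟩

section

variable (hC : ∀ p α β n, C p α β n → ∀ q ≤ p, C q α β n)

include hC

theorem Edge.mono {t t' : Cond K W} {a b : K} (h : Edge C n t a b) (ht : t' ≤ t) :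
    Edge C n t' a b := by
  rcases h with h | h
  · exact Or.inl ⟨h.1, hC _ _ _ _ h.2 _ ht⟩
  · exact Or.inr ⟨h.1, hC _ _ _ _ h.2 _ ht⟩

theorem Stp.mono {S : Set K} {t t' : Cond K W} {a b : K} (h : Stp F C T f n S t a b)
    (ht : t' ≤ t) : Stp F C T f n S t' a b :=
  ⟨h.1.mono hC ht, h.2.1.mono ht, h.2.2.1.mono ht, h.2.2.2⟩

variable (hF : Compl F) {pp : Cond K W} (hf : ∀ i, f i ∈ T) (hb : ∀ i, Bel F pp (f i))
  (hpsi : ∀ i, Psi F C T n pp (f i) (f (i + 1)))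

include hF hpsi

/-- the next vertex of a path -/
theorem step_up {t : Cond K W} (ht : t ≤ pp) {i : ℕ} {α : K} (hα : XX F C T f n i α t)
    {h : K → Cond K W} (hh : h ∈ T) (hle : LEF F h (f (i + 1))) (hbh : Bel F t h) (γ : K) :
    ∃ t' ≤ t, ∃ β, γ < β ∧ Edge C n t' α β ∧ ∃ h' ∈ T, LEF F h' h ∧ Bel F t' h' ∧
      Dec F C h' β n := by
  obtain ⟨g, hg, hgf, htg, hdec⟩ := hα
  obtain ⟨β, ⟨h1, h2, h3⟩, q, hq, hqg, g', hg', h4, h5, h6⟩ :=
    hpsi i t ht g hg hgf h hh hle htg hbh t le_rfl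
      (fun β => C (g β) α β n ∧ γ < β ∧ α < β) (hdec.and ((hF.tail γ).and (hF.tail α)))
  exact ⟨q, hq, β, h2, Or.inl ⟨h3, hC _ _ _ _ h1 _ hqg⟩, g', hg', h4, h5, h6⟩

include hf hb

/-- two vertices of the same level -/
theorem same_level {t : Cond K W} (ht : t ≤ pp) {i : ℕ} {α α' : K}
    (hα : XX F C T f n i α t) (hα' : XX F C T f n i α' t) {S : Set K} {γ : K}
    (hS : ∀ x, γ < x → x ∈ S) (h1 : α ∈ S) (h1' : α' ∈ S) :
    ∃ t' ≤ t, Relation.ReflTransGen (Stp F C T f n S t') α α' := by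
  obtain ⟨t1, ht1, β, hβ, e1, g1, hg1, hg1f, hb1, hd1⟩ := step_up hC hF hpsi ht hα
    (hf (i + 1)) (LEF.refl _) ((hb (i + 1)).mono ht) γ
  obtain ⟨t2, ht2, β', hβ', e2, g2, hg2, hg2f, hb2, hd2⟩ := step_up hC hF hpsi
    (ht1.trans ht) (hα'.mono ht1) hg1 hg1f hb1 γ
  have hg2f' : LEF F g2 (f (i + 1)) := hg2f.trans hg1f
  have hd1' : Dec F C g2 β n := hd1.mono hC hg2f
  have ht2p : t2 ≤ pp := ht2.trans (ht1.trans ht)
  obtain ⟨δ, ⟨k1, k2, k3, k4, k5⟩, t3, ht3, ht3g, g3, hg3, hg3f, hb3, hd3⟩ :=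
    hpsi (i + 1) t2 ht2p g2 hg2 hg2f' (f (i + 2)) (hf (i + 2)) (LEF.refl _) hb2
      ((hb (i + 2)).mono ht2p) t2 le_rfl
      (fun δ => C (g2 δ) β δ n ∧ C (g2 δ) β' δ n ∧ γ < δ ∧ β < δ ∧ β' < δ)
      (hd1'.and (hd2.and ((hF.tail γ).and ((hF.tail β).and (hF.tail β')))))
  have x1 : InX F C T f n α t3 := ⟨i, hα.mono (ht3.trans (ht2.trans ht1))⟩
  have x1' : InX F C T f n α' t3 := ⟨i, hα'.mono (ht3.trans (ht2.trans ht1))⟩
  have x2 : InX F C T f n β t3 := ⟨i + 1, g2, hg2, hg2f', hb2.mono ht3, hd1'⟩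
  have x2' : InX F C T f n β' t3 := ⟨i + 1, g2, hg2, hg2f', hb2.mono ht3, hd2⟩
  have x3 : InX F C T f n δ t3 := ⟨i + 2, g3, hg3, hg3f, hb3, hd3⟩
  refine ⟨t3, ht3.trans (ht2.trans ht1), ?_⟩
  have s1 : Stp F C T f n S t3 α β :=
    ⟨e1.mono hC (ht3.trans ht2), x1, x2, h1, hS β hβ⟩
  have s2 : Stp F C T f n S t3 β δ :=
    ⟨Or.inl ⟨k4, hC _ _ _ _ k1 _ ht3g⟩, x2, x3, hS β hβ, hS δ k3⟩
  have s3 : Stp F C T f n S t3 β' δ :=
    ⟨Or.inl ⟨k5, hC _ _ _ _ k2 _ ht3g⟩, x2', x3, hS β' hβ', hS δ k3⟩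
  have s4 : Stp F C T f n S t3 α' β' :=
    ⟨e2.mono hC ht3, x1', x2', h1', hS β' hβ'⟩
  exact (((Relation.ReflTransGen.single s1).tail s2).tail s3.symm).tail s4.symm

/-- lift a vertex to a higher level -/
theorem lift_level {t : Cond K W} (ht : t ≤ pp) {i : ℕ} {α : K}
    (hα : XX F C T f n i α t) {S : Set K} {γ : K}
    (hS : ∀ x, γ < x → x ∈ S) (h1 : α ∈ S) (m : ℕ) :
    ∃ t' ≤ t, ∃ β ∈ S, XX F C T f n (i + m) β t' ∧
      Relation.ReflTransGen (Stp F C T f n S t') α β := by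
  induction m with
  | zero => exact ⟨t, le_rfl, α, h1, hα, Relation.ReflTransGen.refl⟩
  | succ m ih =>
    obtain ⟨t1, ht1, β, hβ, hβX, hp⟩ := ih
    obtain ⟨t2, ht2, β2, hβ2, e2, g2, hg2, hg2f, hb2, hd2⟩ := step_up hC hF hpsi
      (ht1.trans ht) hβX (hf (i + m + 1)) (LEF.refl _)
      ((hb (i + m + 1)).mono (ht1.trans ht)) γ
    have x2 : XX F C T f n (i + m + 1) β2 t2 := ⟨g2, hg2, hg2f, hb2, hd2⟩
    refine ⟨t2, ht2.trans ht1, β2, hS β2 hβ2, x2, ?_⟩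
    refine (rtg_mono (fun a b hab => hab.mono hC ht2) hp).tail
      ⟨e2, ⟨_, hβX.mono ht2⟩, ⟨_, x2⟩, hβ, hS β2 hβ2⟩

/-- two vertices are connected by a path whose interior vertices are large -/
theorem connected {t : Cond K W} (ht : t ≤ pp) {α α' : K}
    (hα : InX F C T f n α t) (hα' : InX F C T f n α' t) {S : Set K} {γ : K}
    (hS : ∀ x, γ < x → x ∈ S) (h1 : α ∈ S) (h1' : α' ∈ S) :
    ∃ t' ≤ t, Relation.ReflTransGen (Stp F C T f n S t') α α' := by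
  obtain ⟨i, hi⟩ := hα
  obtain ⟨j, hj⟩ := hα'
  obtain ⟨t1, ht1, β, hβ, hβX, hp⟩ := lift_level hC hF hf hb hpsi ht hi hS h1 j
  obtain ⟨t2, ht2, β', hβ', hβX', hp'⟩ := lift_level hC hF hf hb hpsi (ht1.trans ht)
    (hj.mono ht1) hS h1' i
  rw [add_comm j i] at hβX'
  obtain ⟨t3, ht3, hp3⟩ := same_level hC hF hf hb hpsi (ht2.trans (ht1.trans ht))
    (hβX.mono ht2) hβX' hS hβ hβ'
  refine ⟨t3, ht3.trans (ht2.trans ht1), ?_⟩
  have a1 : Relation.ReflTransGen (Stp F C T f n S t3) α β :=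
    rtg_mono (fun a b hab => hab.mono hC (ht3.trans ht2)) hp
  have a2 : Relation.ReflTransGen (Stp F C T f n S t3) α' β' :=
    rtg_mono (fun a b hab => hab.mono hC ht3) hp'
  exact (a1.trans hp3).trans (rtg_symm (fun a b h => h.symm) a2)

omit hC in
/-- `X` is unbounded -/
theorem large {t : Cond K W} (ht : t ≤ pp) (γ : K) :
    ∃ t' ≤ t, ∃ β, γ < β ∧ InX F C T f n β t' := by
  obtain ⟨β, hβ, q, hq, hqf, g, hg, hgf, hqg, hd⟩ := hpsi 0 t ht (f 0) (hf 0) (LEF.refl _) (f 1)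
    (hf 1) (LEF.refl _) ((hb 0).mono ht) ((hb 1).mono ht) t le_rfl (fun β => γ < β) (hF.tail γ)
  exact ⟨q, hq, β, hβ, 1, g, hg, hgf, hqg, hd⟩

end

end Pool.Agent.H833R3.Levy
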