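import Mathlib

set_option autoImplicit false

/-!
# Homogeneous sets and complete filters on a weakly compact cardinal
-/

namespace Pool.Agent.H833R3.Levy

open Cardinal Set Filter

/-- The well-ordered set `K` has order type an inaccessible cardinal. -/
structure Inac (K : Type) [LinearOrder K] : Prop where
  wf : WellFoundedLT K
  unc : ℵ₁ < #K
  reg : ∀ ι : Type, #ι < #K → ∀ f : ι → K, ∃ γ, ∀ i, f i < γ
  small : ∀ γ : K, #(Iio γ) < #K
  pow : ∀ μ < #K, 2 ^ μ < #K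

/-- Every colouring of the pairs with two colours has a homogeneous set of full size. -/
def PairPart (K : Type) [LinearOrder K] : Prop :=
  ∀ c : K → K → Prop, ∃ H : Set K, #H = #K ∧
    ((∀ x ∈ H, ∀ y ∈ H, x < y → c x y) ∨ ∀ x ∈ H, ∀ y ∈ H, x < y → ¬ c x y)

variable {K : Type} [LinearOrder K]

namespace Inac

theorem aleph0_lt (hK : Inac K) : ℵ₀ < #K := aleph0_lt_aleph_one.trans hK.unc

theorem exists_gt (hK : Inac K) (a : K) : ∃ b, a < b := by
  obtain ⟨γ, h⟩ := hK.reg Unit (by simpa using one_lt_aleph0.trans hK.aleph0_lt) (fun _ => a)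
  exact ⟨γ, h ()⟩

theorem nonempty (hK : Inac K) : Nonempty K := by
  rw [← Cardinal.mk_ne_zero_iff]
  exact (aleph0_pos.trans hK.aleph0_lt).ne'

theorem small' (hK : Inac K) (γ : K) : #(Iic γ) < #K := by
  obtain ⟨b, hb⟩ := hK.exists_gt γ
  exact (mk_le_mk_of_subset (fun x hx => lt_of_le_of_lt hx hb)).trans_lt (hK.small b)

theorem unbdd (hK : Inac K) {H : Set K} (h : #H = #K) (γ : K) : ∃ β ∈ H, γ < β := by
  by_contra hcon
  push Not at hcon
  have : H ⊆ Iic γ := fun x hx => hcon x hx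
  exact absurd ((mk_le_mk_of_subset this).trans_lt (hK.small' γ)) (by rw [h]; exact lt_irrefl _)

end Inac

/-- the lexicographic order of the vectors `(x ∈ S ξ)_ξ` -/
def Lex (S : K → Set K) (x y : K) : Prop :=
  ∃ ξ, (∀ η < ξ, (x ∈ S η ↔ y ∈ S η)) ∧ x ∉ S ξ ∧ y ∈ S ξ

theorem mono_decides (hK : Inac K) (S : K → Set K) {H : Set K} (hH : ∀ γ, ∃ β ∈ H, γ < β)
    (hm : ∀ x ∈ H, ∀ y ∈ H, x < y → ¬ Lex S y x) (ξ : K) :
    (∃ b, ∀ β ∈ H, b ≤ β → β ∈ S ξ) ∨ (∃ b, ∀ β ∈ H, b ≤ β → β ∉ S ξ) := by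
  have := hK.wf
  let T : K → (Iic ξ → Prop) := fun β η => β ∈ S η.1
  have hfib : ∃ v, ∀ γ, ∃ β ∈ H, γ < β ∧ T β = v := by
    by_contra hcon
    push Not at hcon
    choose b hb using hcon
    have hcard : #(Iic ξ → Prop) < #K := by
      have : #(Iic ξ → Prop) = 2 ^ #(Iic ξ) := by simp
      rw [this]
      exact hK.pow _ (hK.small' ξ)
    obtain ⟨γ, hγ⟩ := hK.reg _ hcard b
    obtain ⟨β, hβ, h2⟩ := hH γ
    exact hb (T β) β hβ ((hγ (T β)).trans h2) rfl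
  obtain ⟨v, hv⟩ := hfib
  obtain ⟨γ0⟩ := hK.nonempty
  obtain ⟨β1, hβ1, -, hT1⟩ := hv γ0
  have key : ∀ β ∈ H, β1 ≤ β → T β = v := by
    intro β hβ hle
    obtain ⟨β2, hβ2, hlt, hT2⟩ := hv β
    by_contra hne
    have hex : ∃ η : K, ∃ h : η ≤ ξ, T β ⟨η, h⟩ ≠ v ⟨η, h⟩ := by
      by_contra hcon
      push Not at hcon
      exact hne (funext fun η => hcon η.1 η.2)
    obtain ⟨η, ⟨hηξ, hη⟩, hmin⟩ := WellFounded.has_min (wellFounded_lt (α := K))
      {η : K | ∃ h : η ≤ ξ, T β ⟨η, h⟩ ≠ v ⟨η, h⟩} hex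
    have hag : ∀ ζ < η, ∀ h : ζ ≤ ξ, T β ⟨ζ, h⟩ = v ⟨ζ, h⟩ := by
      intro ζ hζ h
      by_contra hne'
      exact hmin ζ ⟨h, hne'⟩ hζ
    have e1 : ∀ (ζ : K) (h : ζ ≤ ξ), (β1 ∈ S ζ) = v ⟨ζ, h⟩ := fun ζ h =>
      congrFun hT1 ⟨ζ, h⟩
    have e2 : ∀ (ζ : K) (h : ζ ≤ ξ), (β2 ∈ S ζ) = v ⟨ζ, h⟩ := fun ζ h =>
      congrFun hT2 ⟨ζ, h⟩
    have e0 : ∀ (ζ : K) (hζ : ζ < η), (β ∈ S ζ) = v ⟨ζ, hζ.le.trans hηξ⟩ := fun ζ hζ =>
      hag ζ hζ (hζ.le.trans hηξ)
    by_cases h1 : β ∈ S η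
    · have h2 : ¬ v ⟨η, hηξ⟩ := by
        intro h2
        exact hη (by simp only [T, eq_iff_iff]; exact ⟨fun _ => h2, fun _ => h1⟩)
      refine hm β hβ β2 hβ2 hlt ⟨η, fun ζ hζ => ?_, ?_, h1⟩
      · rw [e2 ζ (hζ.le.trans hηξ), e0 ζ hζ]
      · rw [e2 η hηξ]
        exact h2
    · have h2 : v ⟨η, hηξ⟩ := by
        by_contra h2
        exact hη (by simp only [T, eq_iff_iff]; exact ⟨fun h => absurd h h1, fun h => absurd h h2⟩)
      have hne1 : β1 ≠ β := by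
        rintro rfl
        apply h1
        rw [e1 η hηξ]
        exact h2
      refine hm β1 hβ1 β hβ (lt_of_le_of_ne hle hne1) ⟨η, fun ζ hζ => ?_, h1, ?_⟩
      · rw [e1 ζ (hζ.le.trans hηξ), e0 ζ hζ]
      · rw [e1 η hηξ]
        exact h2
  by_cases h : v ⟨ξ, le_rfl⟩
  · refine Or.inl ⟨β1, fun β hβ hle => ?_⟩
    have := congrFun (key β hβ hle) ⟨ξ, le_rfl⟩
    exact (eq_iff_iff.1 this).2 h
  · refine Or.inr ⟨β1, fun β hβ hle hmem => ?_⟩
    have := congrFun (key β hβ hle) ⟨ξ, le_rfl⟩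
    exact h ((eq_iff_iff.1 this).1 hmem)

/-- For every family of `κ` many subsets of a weakly compact cardinal `κ` there is an unbounded set
which is, up to a bounded set, contained in or disjoint from each of them. -/
theorem exists_homog (hK : Inac K) (hP : PairPart K) (S : K → Set K) :
    ∃ H : Set K, (∀ γ, ∃ β ∈ H, γ < β) ∧
      ∀ ξ, (∃ b, ∀ β ∈ H, b ≤ β → β ∈ S ξ) ∨ (∃ b, ∀ β ∈ H, b ≤ β → β ∉ S ξ) := by
  obtain ⟨H, hH, h | h⟩ := hP (fun x y => Lex S y x)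
  · refine ⟨H, hK.unbdd hH, fun ξ => ?_⟩
    have := mono_decides hK (fun ξ => (S ξ)ᶜ) (hK.unbdd hH) (by
      rintro x hx y hy hxy ⟨ζ, h1, h2, h3⟩
      obtain ⟨θ, h4, h5, h6⟩ := h x hx y hy hxy
      have h2' : y ∈ S ζ := by simpa using h2
      rcases lt_trichotomy ζ θ with h7 | h7 | h7
      · exact h3 ((h4 ζ h7).1 h2')
      · subst h7
        exact h5 h2'
      · have := h1 θ h7
        simp only [mem_compl_iff, not_iff_not] at this
        exact h5 (this.2 h6)) ξ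
    simpa [or_comm] using this
  · exact ⟨H, hK.unbdd hH, fun ξ => mono_decides hK S (hK.unbdd hH) h ξ⟩

/-- A proper filter on `K`, closed under intersections of fewer than `|K|` sets and containing
the final segments. -/
structure Compl (F : Filter K) : Prop where
  ne : F.NeBot
  tail : ∀ γ, ∀ᶠ β in F, γ < β
  inter : ∀ ι : Type, #ι < #K → ∀ φ : ι → K → Prop, (∀ i, ∀ᶠ β in F, φ i β) →
    ∀ᶠ β in F, ∀ i, φ i β

theorem exists_filter (hK : Inac K) (hP : PairPart K) {I : Type} (hI : #I ≤ #K) (S : I → Set K) :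
    ∃ F : Filter K, Compl F ∧ ∀ i, (∀ᶠ β in F, β ∈ S i) ∨ (∀ᶠ β in F, β ∉ S i) := by
  have := hK.nonempty
  by_cases hne : Nonempty I
  swap
  · have : IsEmpty I := not_nonempty_iff.1 hne
    obtain ⟨H, hH, h⟩ := exists_homog hK hP (fun _ => univ)
    refine ⟨atTop ⊓ 𝓟 H, ⟨?_, fun γ => ?_, fun ι hι φ hφ => ?_⟩, fun i => isEmptyElim i⟩
    · rw [neBot_iff]
      intro hbot
      have : ∀ᶠ β in (atTop ⊓ 𝓟 H : Filter K), False := by rw [hbot]; exact eventually_bot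
      rw [eventually_inf_principal, eventually_atTop] at this
      obtain ⟨a, ha⟩ := this
      obtain ⟨β, hβ, hlt⟩ := hH a
      exact ha β hlt.le hβ
    · rw [eventually_inf_principal, eventually_atTop]
      obtain ⟨b, hb⟩ := hK.exists_gt γ
      exact ⟨b, fun c hc _ => hb.trans_le hc⟩
    · simp only [eventually_inf_principal, eventually_atTop] at hφ ⊢
      choose a ha using hφ
      obtain ⟨γ, hγ⟩ := hK.reg ι hι a
      exact ⟨γ, fun β hβ hβH i => ha i β ((hγ i).le.trans hβ) hβH⟩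
  · obtain ⟨e, he⟩ : ∃ e : K → I, Function.Surjective e := by
      obtain ⟨g⟩ := (Cardinal.le_def _ _).1 hI
      exact ⟨Function.invFun g, Function.invFun_surjective g.injective⟩
    obtain ⟨H, hH, h⟩ := exists_homog hK hP (fun ξ => S (e ξ))
    refine ⟨atTop ⊓ 𝓟 H, ⟨?_, fun γ => ?_, fun ι hι φ hφ => ?_⟩, fun i => ?_⟩
    · rw [neBot_iff]
      intro hbot
      have : ∀ᶠ β in (atTop ⊓ 𝓟 H : Filter K), False := by rw [hbot]; exact eventually_bot
      rw [eventually_inf_principal, eventually_atTop] at this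
      obtain ⟨a, ha⟩ := this
      obtain ⟨β, hβ, hlt⟩ := hH a
      exact ha β hlt.le hβ
    · rw [eventually_inf_principal, eventually_atTop]
      obtain ⟨b, hb⟩ := hK.exists_gt γ
      exact ⟨b, fun c hc _ => hb.trans_le hc⟩
    · simp only [eventually_inf_principal, eventually_atTop] at hφ ⊢
      choose a ha using hφ
      obtain ⟨γ, hγ⟩ := hK.reg ι hι a
      exact ⟨γ, fun β hβ hβH i => ha i β ((hγ i).le.trans hβ) hβH⟩
    · obtain ⟨ξ, rfl⟩ := he i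
      simp only [eventually_inf_principal, eventually_atTop]
      rcases h ξ with ⟨b, hb⟩ | ⟨b, hb⟩
      · exact Or.inl ⟨b, fun β hβ hβH => hb β hβH hβ⟩
      · exact Or.inr ⟨b, fun β hβ hβH => hb β hβH hβ⟩

end Pool.Agent.H833R3.Levy
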