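import Pool.Agent.H833R3.LevyBase
import Pool.Agent.H833R3.WC

set_option autoImplicit false

/-!
# Promises

`F` is a complete filter on `K` and `T` a family of functions from `K` to the conditions (they
represent conditions of the tail forcing). `C p α β n` means that `p` forces the pair `{α, β}`,
`α < β`, to have colour `n`.
-/

namespace Pool.Agent.H833R3.Levy

open Cardinal Set Filter

variable {K W : Type} [LinearOrder K]

section

variable (F : Filter K)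

/-- `p` is stronger than the constant part of `f` -/
def Bel (p : Cond K W) (f : K → Cond K W) : Prop := ∀ γ, ∀ᶠ β in F, p ≤ trunc γ (f β)

/-- `f β ≤ g β` for almost all `β` -/
def LEF (f g : K → Cond K W) : Prop := ∀ᶠ β in F, f β ≤ g β

variable (C : Cond K W → K → K → ℕ → Prop)

/-- `f` promises that the colour of `{α, β}` is `n` for almost all `β` -/
def Dec (f : K → Cond K W) (α : K) (n : ℕ) : Prop := ∀ᶠ β in F, C (f β) α β n

variable (T : Set (K → Cond K W))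

/-- below `p`, the set of the `β` which have a promise below `h` of colour `n` meets each large set
given by `f` -/
def Phi (n : ℕ) (p : Cond K W) (f h : K → Cond K W) : Prop :=
  ∀ p' ≤ p, ∀ B : K → Prop, (∀ᶠ β in F, B β) →
    ∃ β, B β ∧ ∃ q ≤ p', q ≤ f β ∧ ∃ g ∈ T, LEF F g h ∧ Bel F q g ∧ Dec F C g β n

/-- `Phi` for all stronger `p`, `f` and `h` -/
def Psi (n : ℕ) (p : Cond K W) (f h : K → Cond K W) : Prop :=
  ∀ p' ≤ p, ∀ f' ∈ T, LEF F f' f → ∀ h' ∈ T, LEF F h' h → Bel F p' f' → Bel F p' h' →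
    Phi F C T n p' f' h'

/-- closure properties of the family `T` -/
structure Closed (p₀ : Cond K W) : Prop where
  const : ∀ p : Cond K W, (fun _ => p) ∈ T
  join : ∀ p : Cond K W, ∀ f ∈ T, (fun β => join p (f β)) ∈ T
  lim : ∀ s : ℕ → K → Cond K W, (∀ n, s n ∈ T) → (fun β => lim fun n => s n β) ∈ T
  dec : ∀ f ∈ T, (∀ᶠ β in F, f β ≤ p₀) → ∀ α, ∃ g ∈ T, LEF F g f ∧ ∃ n, Dec F C g α n
  head : ∀ f ∈ T, ∀ x : K × W, ∃ o : Option K, ∀ᶠ β in F, (f β).f x = o

end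

variable {F : Filter K} {C : Cond K W → K → K → ℕ → Prop} {T : Set (K → Cond K W)}
  {p₀ : Cond K W}

theorem Bel.mono {p q : Cond K W} {f : K → Cond K W} (h : Bel F p f) (hq : q ≤ p) : Bel F q f :=
  fun γ => (h γ).mono fun _ hβ => hq.trans hβ

theorem LEF.refl (f : K → Cond K W) : LEF F f f := Eventually.of_forall fun _ => le_rfl

theorem LEF.trans {f g h : K → Cond K W} (h1 : LEF F f g) (h2 : LEF F g h) : LEF F f h := by
  filter_upwards [h1, h2] with β a b using a.trans b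

theorem Dec.mono (hC : ∀ p α β n, C p α β n → ∀ q ≤ p, C q α β n) {f g : K → Cond K W} {α : K}
    {n : ℕ} (h : Dec F C f α n) (hg : LEF F g f) : Dec F C g α n := by
  filter_upwards [h, hg] with β a b using hC _ _ _ _ a _ b

theorem Psi.mono {n : ℕ} {p p' : Cond K W} {f f' h h' : K → Cond K W} (H : Psi F C T n p f h)
    (hp : p' ≤ p) (hf : LEF F f' f) (hh : LEF F h' h) : Psi F C T n p' f' h' :=
  fun q hq f1 hf1 hf1' h1 hh1 hh1' => H q (hq.trans hp) f1 hf1 (hf1'.trans hf) h1 hh1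
    (hh1'.trans hh)

theorem Compl.nat (hK : Inac K) (hF : Compl F) {φ : ℕ → K → Prop} (h : ∀ n, ∀ᶠ β in F, φ n β) :
    ∀ᶠ β in F, ∀ n, φ n β := hF.inter ℕ (by simpa using hK.aleph0_lt) φ h

theorem bounded_cnt (hK : Inac K) {S : Set (K × W)} (hS : S.Countable) :
    ∃ γ, ∀ x ∈ S, x.1 < γ := by
  obtain ⟨γ, hγ⟩ := hK.reg S ((mk_le_aleph0_iff.2 hS).trans_lt hK.aleph0_lt) (fun x => x.1.1)
  exact ⟨γ, fun x hx => hγ ⟨x, hx⟩⟩

theorem exists_supp (hK : Inac K) (p : Cond K W) : ∃ γ, Supp γ p := bounded_cnt hK p.cnt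

/-- `p` and `f β` are compatible for almost all `β` -/
theorem Bel.compat (hK : Inac K) {p : Cond K W} {f : K → Cond K W} (h : Bel F p f) :
    ∀ᶠ β in F, Compat p (f β) := by
  obtain ⟨γ, hγ⟩ := exists_supp hK p
  filter_upwards [h γ] with β hβ using compat_of_supp hγ hβ

theorem card_below (hK : Inac K) (hW : #W < #K) (γ : K) : #{x : K × W // x.1 < γ} < #K := by
  have h1 : #{x : K × W // x.1 < γ} ≤ #(Iio γ × W) := by
    refine mk_le_of_injective (f := fun x => (⟨x.1.1, x.2⟩, x.1.2)) ?_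
    rintro ⟨⟨a, b⟩, h⟩ ⟨⟨a', b'⟩, h'⟩ heq
    have h1 : a = a' := congrArg (fun z : Iio γ × W => z.1.1) heq
    have h2 : b = b' := congrArg (fun z : Iio γ × W => z.2) heq
    subst h1 h2
    rfl
  refine h1.trans_lt ?_
  simp only [mk_prod, lift_id]
  exact mul_lt_of_lt hK.aleph0_lt.le (hK.small γ) hW

/-- The constant part of `f ∈ T`. -/
theorem exists_head (hK : Inac K) (hW : #W < #K) (hF : Compl F) (hT : Closed F C T p₀)
    {f : K → Cond K W} (hf : f ∈ T) :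
    ∃ p : Cond K W, Bel F p f ∧ ∀ q : Cond K W, (∀ᶠ β in F, f β ≤ q) → p ≤ q := by
  have := hF.ne
  choose o ho using hT.head f hf
  have hcnt : {x | o x ≠ none}.Countable := by
    by_contra hcon
    have h1 : ℵ₁ ≤ #{x | o x ≠ none} := by
      rw [← succ_aleph0, Order.succ_le_iff]
      rw [← Set.countable_coe_iff, ← mk_le_aleph0_iff, not_le] at hcon
      exact hcon
    obtain ⟨A, hA, hA2⟩ := le_mk_iff_exists_subset.1 h1
    have h2 : ∀ᶠ β in F, ∀ x : A, (f β).f x = o x :=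
      hF.inter A (by rw [hA2]; exact hK.unc) (fun x β => (f β).f x = o x) (fun x => ho x)
    obtain ⟨β, hβ⟩ := h2.exists
    have h3 : A ⊆ {x | (f β).f x ≠ none} := fun x hx => by
      have := hβ ⟨x, hx⟩
      simp only [mem_ofPred_eq, ne_eq] at this ⊢
      rw [this]
      exact hA hx
    have h4 := mk_le_aleph0_iff.2 ((f β).cnt.mono h3)
    rw [hA2] at h4
    exact absurd h4 (not_le.2 aleph0_lt_aleph_one)
  refine ⟨⟨o, hcnt, fun x y hxy => ?_⟩, fun γ => ?_, fun q hq x y hxy => ?_⟩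
  · obtain ⟨β, hβ⟩ := (ho x).exists
    exact (f β).lt x y (hβ.trans hxy)
  · have h1 := hF.inter {x : K × W // x.1 < γ} (card_below hK hW γ)
      (fun x β => (f β).f x.1 = o x.1) (fun x => ho x.1)
    filter_upwards [h1] with β hβ x y hxy
    obtain ⟨h2, h3⟩ := trunc_some.1 hxy
    exact (hβ ⟨x, h2⟩).symm.trans h3
  · obtain ⟨β, hβ, hβ2⟩ := ((ho x).and hq).exists
    exact hβ.symm.trans (hβ2 x y hxy)

/-- Decision of the colours of the pairs `{α, β}`. -/
theorem exists_dec (hK : Inac K) (hW : #W < #K) (hF : Compl F) (hT : Closed F C T p₀)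
    {q : Cond K W} (hq : q ≤ p₀) {h : K → Cond K W} (hh : h ∈ T)
    (hle : ∀ᶠ β in F, h β ≤ q) (α : K) :
    ∃ g ∈ T, LEF F g h ∧ ∃ q' ≤ q, Bel F q' g ∧ ∃ n, Dec F C g α n := by
  obtain ⟨g, hg, hgh, n, hn⟩ := hT.dec h hh (hle.mono fun β hβ => hβ.trans hq) α
  obtain ⟨q', hq', h2⟩ := exists_head hK hW hF hT hg
  refine ⟨g, hg, hgh, q', h2 q ?_, hq', n, hn⟩
  filter_upwards [hgh, hle] with β a b using a.trans b

/-- For some colour, `Psi` holds for some stronger conditions. -/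
theorem exists_psi (hK : Inac K) (hW : #W < #K) (hF : Compl F) (hT : Closed F C T p₀)
    {p : Cond K W} (hp : p ≤ p₀) {f h : K → Cond K W} (hf : f ∈ T) (hh : h ∈ T)
    (hpf : Bel F p f) (hph : Bel F p h) :
    ∃ n, ∃ p' ≤ p, ∃ f' ∈ T, LEF F f' f ∧ ∃ h' ∈ T, LEF F h' h ∧ Bel F p' f' ∧ Bel F p' h' ∧
      Psi F C T n p' f' h' := by
  have := hF.ne
  by_contra hcon
  push Not at hcon
  -- the states of the construction
  let St := {s : Cond K W × (K → Cond K W) × (K → Cond K W) //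
    s.1 ≤ p ∧ s.2.1 ∈ T ∧ LEF F s.2.1 f ∧ s.2.2 ∈ T ∧ LEF F s.2.2 h ∧ Bel F s.1 s.2.1 ∧
      Bel F s.1 s.2.2}
  have step : ∀ n : ℕ, ∀ s : St, ∃ t : St, t.1.1 ≤ s.1.1 ∧ LEF F t.1.2.1 s.1.2.1 ∧
      LEF F t.1.2.2 s.1.2.2 ∧ ∃ B : K → Prop, (∀ᶠ β in F, B β) ∧ ∀ β, B β →
        ∀ q ≤ t.1.1, q ≤ t.1.2.1 β → ∀ g ∈ T, LEF F g t.1.2.2 → Bel F q g →
          ¬ Dec F C g β n := by
    rintro n ⟨⟨p1, f1, h1⟩, a1, a2, a3, a4, a5, a6, a7⟩
    have h2 := hcon n p1 a1 f1 a2 a3 h1 a4 a5 a6 a7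
    unfold Psi at h2
    push Not at h2
    obtain ⟨p2, b1, f2, b2, b3, h3, b4, b5, b6, b7, b8⟩ := h2
    unfold Phi at b8
    push Not at b8
    obtain ⟨p3, c1, B, hB, c2⟩ := b8
    exact ⟨⟨(p3, f2, h3), (c1.trans b1).trans a1, b2, b3.trans a3, b4, b5.trans a5, b6.mono c1,
      b7.mono c1⟩, c1.trans b1, b3, b5, B, hB, fun β hβ q hq hqf g hg hgh hqg =>
        c2 β hβ q hq hqf g hg hgh hqg⟩
  choose nx hnx using step
  let s : ℕ → St := fun n => Nat.rec ⟨(p, f, h), le_rfl, hf, LEF.refl f, hh, LEF.refl h, hpf, hph⟩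
    (fun n t => nx n t) n
  have hs : ∀ n, s (n + 1) = nx n (s n) := fun n => rfl
  have e1 : ∀ n, (s (n + 1)).1.1 ≤ (s n).1.1 := fun n => by rw [hs]; exact (hnx n (s n)).1
  have e2 : ∀ n, LEF F (s (n + 1)).1.2.1 (s n).1.2.1 := fun n => by
    rw [hs]; exact (hnx n (s n)).2.1
  have e3 : ∀ n, LEF F (s (n + 1)).1.2.2 (s n).1.2.2 := fun n => by
    rw [hs]; exact (hnx n (s n)).2.2.1
  have e4 : ∀ n, ∃ B : K → Prop, (∀ᶠ β in F, B β) ∧ ∀ β, B β →
        ∀ q ≤ (s (n + 1)).1.1, q ≤ (s (n + 1)).1.2.1 β → ∀ g ∈ T, LEF F g (s (n + 1)).1.2.2 →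
          Bel F q g → ¬ Dec F C g β n := fun n => by
    rw [hs]; exact (hnx n (s n)).2.2.2
  choose B hB hB2 using e4
  let pw := lim fun n => (s n).1.1
  let fw : K → Cond K W := fun β => lim fun n => (s n).1.2.1 β
  let hw : K → Cond K W := fun β => lim fun n => (s n).1.2.2 β
  have hfw : fw ∈ T := hT.lim _ fun n => (s n).2.2.1
  have hhw : hw ∈ T := hT.lim _ fun n => (s n).2.2.2.2.1
  have hpw : ∀ n, pw ≤ (s n).1.1 := lim_le e1
  have g1 : ∀ᶠ β in F, ∀ n, fw β ≤ (s n).1.2.1 β := by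
    filter_upwards [Compl.nat hK hF e2] with β hβ using lim_le hβ
  have g2 : ∀ᶠ β in F, ∀ n, hw β ≤ (s n).1.2.2 β := by
    filter_upwards [Compl.nat hK hF e3] with β hβ using lim_le hβ
  have hbf : Bel F pw fw := fun γ => by
    filter_upwards [Compl.nat hK hF (fun n => (s n).2.2.2.2.2.2.1 γ)] with β hβ
    exact le_trunc_lim fun n => (hpw n).trans (hβ n)
  have hbh : Bel F pw hw := fun γ => by
    filter_upwards [Compl.nat hK hF (fun n => (s n).2.2.2.2.2.2.2 γ)] with β hβ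
    exact le_trunc_lim fun n => (hpw n).trans (hβ n)
  obtain ⟨β, k1, k2, k3⟩ := (((hbf.compat hK).and g1).and (Compl.nat hK hF hB)).exists.imp
    (fun β h => (⟨h.1.1, h.1.2, h.2⟩ : Compat pw (fw β) ∧ (∀ n, fw β ≤ (s n).1.2.1 β) ∧
      ∀ n, B n β))
  let q := join pw (fw β)
  have hq1 : q ≤ pw := join_le_left _ _
  have hq2 : q ≤ fw β := join_le_right k1
  let h1 : K → Cond K W := fun δ => join q (hw δ)
  have hh1 : h1 ∈ T := hT.join q hw hhw
  have hq0 : q ≤ p₀ := hq1.trans ((hpw 0).trans ((s 0).2.1.trans hp))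
  obtain ⟨g, hg, hgh, q', hq', hqg, n, hn⟩ := exists_dec hK hW hF hT hq0 hh1
    (Eventually.of_forall fun δ => join_le_left _ _) β
  have hle : LEF F h1 hw := by
    filter_upwards [(hbh.mono hq1).compat hK] with δ hδ using join_le_right hδ
  refine hB2 n β (k3 n) q' (hq'.trans (hq1.trans (hpw (n + 1))))
    (hq'.trans (hq2.trans (k2 (n + 1)))) g hg
    ?_ hqg hn
  filter_upwards [hgh, hle, g2] with δ a b c using a.trans (b.trans (c (n + 1)))

end Pool.Agent.H833R3.Levy
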