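import Pool.Agent.H833R3.Core

set_option autoImplicit false

/-!
# An infinite path
-/

namespace Pool.Agent.H833R3.Levy

open Cardinal Set Filter

variable {K W : Type} [LinearOrder K]
variable {F : Filter K} {C : Cond K W → K → K → ℕ → Prop} {T : Set (K → Cond K W)}
  {p₀ : Cond K W}

/-- pairs of a condition and a weaker function -/
def Nd (F : Filter K) (T : Set (K → Cond K W)) (p₀ : Cond K W) : Type :=
  {s : Cond K W × (K → Cond K W) // s.1 ≤ p₀ ∧ s.2 ∈ T ∧ Bel F s.1 s.2}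

/-- the order of the pairs -/
def LEN (t s : Nd F T p₀) : Prop := t.1.1 ≤ s.1.1 ∧ LEF F t.1.2 s.1.2

theorem LEN.refl (s : Nd F T p₀) : LEN s s := ⟨le_rfl, LEF.refl _⟩

theorem LEN.trans {r s t : Nd F T p₀} (h1 : LEN r s) (h2 : LEN s t) : LEN r t :=
  ⟨h1.1.trans h2.1, h1.2.trans h2.2⟩

/-- one step of a path of colour `n` -/
def RR (C : Cond K W → K → K → ℕ → Prop) (n : ℕ) (t s : Nd F T p₀) : Prop :=
  t.1.1 ≤ s.1.1 ∧ Psi F C T n t.1.1 s.1.2 t.1.2

/-- There is an infinite path. -/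
theorem exists_path (hK : Inac K) (hW : #W < #K) (hF : Compl F) (hT : Closed F C T p₀) :
    ∃ n, ∃ p ≤ p₀, ∃ f : ℕ → K → Cond K W, (∀ i, f i ∈ T) ∧ (∀ i, Bel F p (f i)) ∧
      ∀ i, Psi F C T n p (f i) (f (i + 1)) := by
  by_contra hcon
  push Not at hcon
  have hwf : ∀ n, WellFounded (RR (F := F) (T := T) (p₀ := p₀) C n) := by
    intro n
    rw [wellFounded_iff_isEmpty_descending_chain]
    refine ⟨fun ⟨s, hs⟩ => ?_⟩
    have h1 : ∀ i, lim (fun i => (s i).1.1) ≤ (s i).1.1 := lim_le fun i => (hs i).1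
    obtain ⟨i, hi⟩ := hcon n (lim fun i => (s i).1.1) ((h1 0).trans (s 0).2.1)
      (fun i => (s i).1.2) (fun i => (s i).2.2.1) (fun i => (s i).2.2.2.mono (h1 i))
    exact hi ((hs i).2.mono (h1 (i + 1)) (LEF.refl _) (LEF.refl _))
  have iwf : ∀ n, IsWellFounded (Nd F T p₀) (RR C n) := fun n => ⟨hwf n⟩
  let rk : ℕ → Nd F T p₀ → Ordinal.{0} := fun n s =>
    @IsWellFounded.rank _ (RR C n) (iwf n) s
  have hrk : ∀ n t s, RR C n t s → rk n t < rk n s := fun n t s h =>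
    @IsWellFounded.rank_lt_of_rel _ _ _ (RR C n) (iwf n) h
  let mu : ℕ → Nd F T p₀ → Ordinal.{0} := fun n s =>
    Ordinal.lsub fun t : {t : Nd F T p₀ // LEN t s} => rk n t.1
  have hmu1 : ∀ n t s, LEN t s → rk n t < mu n s := fun n t s h =>
    Ordinal.lt_lsub (fun t : {t : Nd F T p₀ // LEN t s} => rk n t.1) ⟨t, h⟩
  have hmu2 : ∀ n s a, (∀ t, LEN t s → rk n t < a) → mu n s ≤ a := fun n s a h =>
    Ordinal.lsub_le_iff.2 fun t => h t.1 t.2
  have hmu3 : ∀ n t s, LEN t s → mu n t ≤ mu n s := fun n t s h =>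
    hmu2 n t _ fun r hr => hmu1 n r s (hr.trans h)
  have hst : ∀ n s, ∃ t, LEN t s ∧ ∀ r, LEN r t → mu n r = mu n t := by
    intro n s
    obtain ⟨t, ht, hmin⟩ := WellFounded.has_min (InvImage.wf (mu n) Ordinal.lt_wf)
      {t | LEN t s} ⟨s, LEN.refl s⟩
    refine ⟨t, ht, fun r hr => le_antisymm (hmu3 n r t hr) ?_⟩
    exact not_lt.1 (hmin r (hr.trans ht))
  choose nx hnx1 hnx2 using hst
  let s0 : Nd F T p₀ := ⟨(p₀, fun _ => p₀), le_rfl, hT.const p₀, fun γ =>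
    Eventually.of_forall fun _ => le_trunc γ p₀⟩
  let s : ℕ → Nd F T p₀ := fun n => Nat.rec s0 (fun n t => nx n t) n
  have hs : ∀ n, s (n + 1) = nx n (s n) := fun n => rfl
  have e1 : ∀ n, LEN (s (n + 1)) (s n) := fun n => by rw [hs]; exact hnx1 n (s n)
  have e2 : ∀ n r, LEN r (s (n + 1)) → mu n r = mu n (s (n + 1)) := fun n => by
    rw [hs]; exact hnx2 n (s n)
  let pw := lim fun n => (s n).1.1
  let fw : K → Cond K W := fun β => lim fun n => (s n).1.2 β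
  have hfw : fw ∈ T := hT.lim _ fun n => (s n).2.2.1
  have hpw : ∀ n, pw ≤ (s n).1.1 := lim_le fun n => (e1 n).1
  have g1 : ∀ n, LEF F fw (s n).1.2 := by
    intro n
    filter_upwards [Compl.nat hK hF (fun n => (e1 n).2)] with β hβ using lim_le hβ n
  have hbf : Bel F pw fw := fun γ => by
    filter_upwards [Compl.nat hK hF (fun n => (s n).2.2.2 γ)] with β hβ
    exact le_trunc_lim fun n => (hpw n).trans (hβ n)
  obtain ⟨n, p', hp', f', hf', hff, h', hh', hhf, hb1, hb2, hpsi⟩ :=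
    exists_psi hK hW hF hT ((hpw 0).trans (s 0).2.1) hfw hfw hbf hbf
  have hp0 : p' ≤ p₀ := hp'.trans ((hpw 0).trans (s 0).2.1)
  let a : Nd F T p₀ := ⟨(p', f'), hp0, hf', hb1⟩
  let b : Nd F T p₀ := ⟨(p', h'), hp0, hh', hb2⟩
  have ha : LEN a (s (n + 1)) := ⟨hp'.trans (hpw (n + 1)), hff.trans (g1 (n + 1))⟩
  have hb : LEN b (s (n + 1)) := ⟨hp'.trans (hpw (n + 1)), hhf.trans (g1 (n + 1))⟩
  have k1 : mu n b ≤ rk n a := hmu2 n b _ fun t ht =>
    hrk n t a ⟨ht.1, hpsi.mono ht.1 (LEF.refl _) ht.2⟩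
  have k2 : rk n a < mu n a := hmu1 n a a (LEN.refl a)
  rw [e2 n a ha] at k2
  rw [e2 n b hb] at k1
  exact absurd k2 (not_lt.2 k1)

end Pool.Agent.H833R3.Levy
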