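import Pool.Agent.H833R3.LevyBase
import Pool.Agent.H833R3.Bridge
import Pool.Agent.Helper669.Forcing

set_option autoImplicit false

/-!
# Basic facts on the Levy collapse
-/

namespace Pool.Agent.H833R3.Levy

open Cardinal Set Helper669.Forcing

variable {K W : Type} [LinearOrder K]

theorem ground_surj {P X Y : Type} [Preorder P] (e : X → Y) (he : Function.Surjective e)
    (p : P) : p ∈ fex fun R : X → Y → Set P => fand (IsFun R) (IsOnto R) := by
  have hd : Down (fand (IsFun fun x y => fground (P := P) (y = e x))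
      (IsOnto fun x y => fground (P := P) (y = e x))) :=
    down_fand (down_IsFun _) (down_IsOnto _)
  have h0 : ∀ q : P, ∀ x y, q ∈ meets (fground (P := P) (y = e x)) → y = e x := by
    intro q x y h
    obtain ⟨r, _, s, hs, _⟩ := h q le_rfl
    exact hs
  have h1 : ∀ q : P, ∀ x y, y = e x → q ∈ meets (fground (P := P) (y = e x)) :=
    fun q x y h => meets_of_mem (show q ∈ fground (P := P) (y = e x) from h)
  refine mem_fex_of_mem (fun x y => fground (y = e x)) hd ⟨⟨fun x => ?_, fun x y y' => ?_⟩,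
    fun y => ?_⟩
  · exact mem_fex_of_mem (e x) (down_meets _) (h1 _ _ _ rfl)
  · exact mem_fimp.2 fun q _ h => ⟨q, le_rfl, (h0 _ _ _ h.1).trans (h0 _ _ _ h.2).symm⟩
  · obtain ⟨x, hx⟩ := he y
    exact mem_fex_of_mem x (down_meets _) (h1 _ _ _ hx.symm)

/-- No new surjection from `ℕ` onto `W`. -/
theorem no_surj_nat [LinearOrder W] (hW : Om W) (p : Cond K W) :
    p ∈ fnot (fex fun R : ℕ → W → Set (Cond K W) => fand (IsFun R) (IsOnto R)) := by
  intro q _ h
  obtain ⟨r, _, R, hR1, hR2⟩ := mem_fex.1 h q le_rfl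
  have step : ∀ (n : ℕ) (s : {s : Cond K W // s ≤ r}), ∃ s' : {s : Cond K W // s ≤ r},
      s'.1 ≤ s.1 ∧ ∃ w, s'.1 ∈ meets (R n w) := by
    rintro n ⟨s, hs⟩
    obtain ⟨s', hs', w, hw⟩ := IsFun.total (down_IsFun R r hR1 s hs) n
    exact ⟨⟨s', hs'.trans hs⟩, hs', w, hw⟩
  choose nx hnx1 hnx2 using step
  let s : ℕ → {s : Cond K W // s ≤ r} := fun n => Nat.rec ⟨r, le_rfl⟩ (fun n t => nx n t) n
  have hs : ∀ n, s (n + 1) = nx n (s n) := fun n => rfl
  have h1 : ∀ n, (s (n + 1)).1 ≤ (s n).1 := fun n => by rw [hs]; exact hnx1 n (s n)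
  have h2 : ∀ n, ∃ w, (s (n + 1)).1 ∈ meets (R n w) := fun n => by rw [hs]; exact hnx2 n (s n)
  choose w hw using h2
  have hl : ∀ n, lim (fun n => (s n).1) ≤ (s n).1 := lim_le h1
  obtain ⟨w', hw'⟩ := hW.bdd (Set.range w) (Set.countable_range w)
  have hlr : lim (fun n => (s n).1) ≤ r := (hl 0).trans (s 0).2
  obtain ⟨t, ht, n, hn⟩ := mem_fex.1 (down_IsOnto R r hR2 _ hlr w') _ le_rfl
  have h3 : t ∈ meets (R n (w n)) := down_meets _ _ (hw n) t (ht.trans (hl (n + 1)))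
  have h4 := IsFun.unique (down_IsFun R r hR1 t (ht.trans hlr)) hn h3
  exact absurd (hw' (w n) ⟨n, rfl⟩) (by rw [h4]; exact lt_irrefl _)

theorem mk_supp_lt (hK : Inac K) (hW : #W < #K) (γ : K) :
    #{p : Cond K W // Supp γ p} < #K := by
  have h1 : #{p : Cond K W // Supp γ p} ≤ #((Iio γ × W) × Iio γ → Prop) := by
    refine mk_le_of_injective
      (f := fun p z => p.1.f (z.1.1.1, z.1.2) = some z.2.1) ?_
    rintro ⟨p, hp⟩ ⟨q, hq⟩ h
    have h2 : ∀ x y, p.f x = some y ↔ q.f x = some y := by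
      intro x y
      by_cases hx : x.1 < γ
      · by_cases hy : y < γ
        · have := congrFun h ((⟨x.1, hx⟩, x.2), ⟨y, hy⟩)
          exact iff_of_eq this
        · constructor
          · intro h'
            exact absurd ((p.lt x y h').trans hx) hy
          · intro h'
            exact absurd ((q.lt x y h').trans hx) hy
      · constructor
        · intro h'
          exact absurd (hp x (by rw [h']; simp)) hx
        · intro h'
          exact absurd (hq x (by rw [h']; simp)) hx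
    have h3 : p.f = q.f := by
      funext x
      rcases h4 : q.f x with _ | y
      · rcases h5 : p.f x with _ | y
        · rfl
        · have := (h2 x y).1 h5
          rw [h4] at this
          exact absurd this (by simp)
      · exact (h2 x y).2 h4
    rcases p with ⟨pf, _, _⟩
    rcases q with ⟨qf, _, _⟩
    simp only at h3
    subst h3
    rfl
  refine h1.trans_lt ?_
  have h2 : #((Iio γ × W) × Iio γ → Prop) = 2 ^ ((#(Iio γ) * #W) * #(Iio γ)) := by simp
  rw [h2]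
  exact hK.pow _ (mul_lt_of_lt hK.aleph0_lt.le (mul_lt_of_lt hK.aleph0_lt.le (hK.small γ) hW)
    (hK.small γ))

theorem exists_supp' (hK : Inac K) (p : Cond K W) : ∃ γ, Supp γ p := by
  obtain ⟨γ, hγ⟩ := hK.reg {x | p.f x ≠ none} ((mk_le_aleph0_iff.2 p.cnt).trans_lt hK.aleph0_lt)
    (fun x => x.1.1)
  exact ⟨γ, fun x hx => hγ ⟨x, hx⟩⟩

/-- Every function from `W` to `K` in the extension is bounded. -/
theorem exists_bound [LinearOrder W] (hK : Inac K) (hW : Om W) {R : W → K → Set (Cond K W)}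
    {t : Cond K W} (ht : t ∈ IsFun R) :
    ∃ γ, ∀ w x, ∀ s ≤ t, s ∈ meets (R w x) → x < γ := by
  have hwf := hW.wf
  have hWK : #W < #K := by rw [hW.card]; exact hK.unc
  obtain ⟨δ₀, hδ₀⟩ := exists_supp' hK t
  -- one closure step
  have hG : ∀ δ, ∃ δ', ∀ s : Cond K W, Supp δ s → s ≤ t → ∀ w, ∃ s' ≤ s, Supp δ' s' ∧
      ∃ x < δ', s' ∈ meets (R w x) := by
    intro δ
    have h1 : ∀ z : {p : Cond K W // Supp δ p} × W, ∃ ε, z.1.1 ≤ t → ∃ s' ≤ z.1.1,
        Supp ε s' ∧ ∃ x < ε, s' ∈ meets (R z.2 x) := by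
      rintro ⟨⟨s, hs⟩, w⟩
      by_cases hst : s ≤ t
      · obtain ⟨s', hs', x, hx⟩ := IsFun.total (down_IsFun R t ht s hst) w
        obtain ⟨ε, hε⟩ := exists_supp' hK s'
        obtain ⟨ε', hε'⟩ := hK.exists_gt (max ε x)
        exact ⟨ε', fun _ => ⟨s', hs', fun y hy => (hε y hy).trans
          ((le_max_left _ _).trans_lt hε'), x, (le_max_right _ _).trans_lt hε', hx⟩⟩
      · exact ⟨δ, fun h => absurd h hst⟩
    choose e he using h1
    have h2 : #({p : Cond K W // Supp δ p} × W) < #K := by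
      simp only [mk_prod, lift_id]
      exact mul_lt_of_lt hK.aleph0_lt.le (mk_supp_lt hK hWK δ) hWK
    obtain ⟨δ', hδ'⟩ := hK.reg _ h2 e
    refine ⟨δ', fun s hs hst w => ?_⟩
    obtain ⟨s', h3, h4, x, h5, h6⟩ := he (⟨s, hs⟩, w) hst
    exact ⟨s', h3, fun y hy => (h4 y hy).trans (hδ' _), x, h5.trans (hδ' _), h6⟩
  choose G hG using hG
  -- iterate the closure step
  have hrec : ∀ (w : W) (ih : ∀ w', w' < w → K), ∃ γ, δ₀ < γ ∧ ∀ w' (hw : w' < w),
      ih w' hw < γ ∧ G (ih w' hw) < γ := by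
    intro w ih
    obtain ⟨γ, hγ⟩ := hK.reg (Option {w' // w' < w}) (by
      have h1 : #{w' // w' < w} ≤ ℵ₀ :=
        mk_le_aleph0_iff.2 ((hW.small w).mono fun x hx => le_of_lt hx)
      rw [mk_option]
      exact add_lt_of_lt hK.aleph0_lt.le (h1.trans_lt hK.aleph0_lt)
        (one_lt_aleph0.trans hK.aleph0_lt)) (fun o => match o with
          | none => δ₀
          | some w' => max (ih w'.1 w'.2) (G (ih w'.1 w'.2)))
    exact ⟨γ, hγ none, fun w' hw => ⟨(le_max_left _ _).trans_lt (hγ (some ⟨w', hw⟩)),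
      (le_max_right _ _).trans_lt (hγ (some ⟨w', hw⟩))⟩⟩
  choose nx hnx1 hnx2 using hrec
  let h : W → K := (wellFounded_lt (α := W)).fix nx
  have hh : ∀ w, h w = nx w fun w' _ => h w' := fun w => WellFounded.fix_eq _ _ _
  have h1 : ∀ w, δ₀ < h w := fun w => by rw [hh]; exact hnx1 _ _
  have h2 : ∀ w w', w' < w → h w' < h w ∧ G (h w') < h w := fun w w' hw => by
    rw [hh w]; exact hnx2 w (fun w' _ => h w') w' hw
  obtain ⟨γ, hγ, hmin⟩ := WellFounded.has_min (@wellFounded_lt K _ hK.wf)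
    {γ | ∀ w, h w < γ} (hK.reg W hWK h)
  refine ⟨γ, fun w x s hs hx => ?_⟩
  obtain ⟨w0, -⟩ := hW.bdd ∅ Set.countable_empty
  have hδγ : δ₀ < γ := (h1 w0).trans (hγ w0)
  -- the part of `s` below `γ`
  have h3 : ∃ w1, Supp (h w1) (trunc γ s) := by
    have h4 : ∀ z : {z | (trunc γ s).f z ≠ none}, ∃ w1, z.1.1 < h w1 := by
      rintro ⟨z, hz⟩
      have h5 : z.1 < γ := supp_trunc γ s z hz
      by_contra hcon
      push Not at hcon
      have h6 : z.1 ∈ {γ | ∀ w, h w < γ} := by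
        intro w
        obtain ⟨w2, hw2⟩ := hW.bdd {w} (Set.countable_singleton w)
        exact ((h2 w2 w (hw2 w rfl)).1).trans_le (hcon w2)
      exact hmin z.1 h6 h5
    choose g hg using h4
    have := (trunc γ s).cnt.to_subtype
    obtain ⟨w1, hw1⟩ := hW.bdd (Set.range g) (Set.countable_range g)
    exact ⟨w1, fun z hz => (hg ⟨z, hz⟩).trans (h2 w1 _ (hw1 _ ⟨_, rfl⟩)).1⟩
  obtain ⟨w1, hw1⟩ := h3
  have h4 : trunc γ s ≤ t := by
    intro z y hz
    exact trunc_some.2 ⟨(hδ₀ z (by rw [hz]; simp)).trans hδγ, hs z y hz⟩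
  obtain ⟨s', h5, h6, x', h7, h8⟩ := hG (h w1) (trunc γ s) hw1 h4 w
  obtain ⟨w2, hw2⟩ := hW.bdd {w1} (Set.countable_singleton w1)
  have h9 : G (h w1) < γ := ((h2 w2 w1 (hw2 w1 rfl)).2).trans (hγ w2)
  obtain ⟨r, hr1, hr2⟩ := exists_common (γ := γ) (r := s') (s := s)
    (fun z hz => (h6 z hz).trans h9) h5
  have h10 := IsFun.unique (down_IsFun R t ht r (hr2.trans hs)) (down_meets _ _ hx r hr2)
    (down_meets _ _ h8 r hr1)
  rw [h10]
  exact h7.trans h9

/-- There is no surjection from `W` onto `K` in the extension. -/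
theorem no_surj [LinearOrder W] (hK : Inac K) (hW : Om W) (p : Cond K W) :
    p ∈ fnot (fex fun R : W → K → Set (Cond K W) => fand (IsFun R) (IsOnto R)) := by
  intro q _ h
  obtain ⟨r, _, R, hR1, hR2⟩ := mem_fex.1 h q le_rfl
  obtain ⟨γ, hγ⟩ := exists_bound hK hW hR1
  obtain ⟨s, hs, w, hw⟩ := mem_fex.1 (hR2 γ) r le_rfl
  exact lt_irrefl _ (hγ w γ s hs hw)

/-- The generic surjection. -/
theorem gen_surj [LinearOrder W] (hK : Inac K) (hW : Om W) (a : K) (p : Cond K W) :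
    p ∈ fex fun R : W → Iic a → Set (Cond K W) => fand (IsFun R) (IsOnto R) := by
  obtain ⟨γ, hγ⟩ := hK.exists_gt a
  let R : W → Iic a → Set (Cond K W) := fun w x =>
    {p | ∃ y, p.f (γ, w) = some y ∧ x.1 = min y a}
  have hRd : ∀ w x, Down (R w x) := by
    rintro w x p ⟨y, hy, hx⟩ q hq
    exact ⟨y, hq _ _ hy, hx⟩
  have hval : ∀ (q : Cond K W) w, q.f (γ, w) = none → ∀ x : Iic a, ∃ r ≤ q, r ∈ R w x := by
    intro q w hq x
    refine ⟨add q (γ, w) x.1 (lt_of_le_of_lt x.2 hγ), add_le _ _ _ _, x.1, add_apply hq, ?_⟩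
    exact (min_eq_left x.2).symm
  have htot : ∀ (q : Cond K W) w, ∃ r ≤ q, ∃ x, r ∈ R w x := by
    intro q w
    rcases hq : q.f (γ, w) with _ | y
    · obtain ⟨r, hr, hx⟩ := hval q w hq ⟨a, le_rfl⟩
      exact ⟨r, hr, _, hx⟩
    · exact ⟨q, le_rfl, ⟨min y a, min_le_right _ _⟩, y, hq, rfl⟩
  refine mem_fex_of_mem R (down_fand (down_IsFun _) (down_IsOnto _))
    ⟨⟨fun w => ?_, fun w x x' => ?_⟩, fun x => ?_⟩
  · refine mem_fex.2 fun q _ => ?_
    obtain ⟨r, hr, x, hx⟩ := htot q w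
    exact ⟨r, hr, x, meets_of_mem hx⟩
  · refine mem_fimp.2 fun q _ h => ⟨q, le_rfl, ?_⟩
    obtain ⟨r, hr, y, hy, hx⟩ := exists_of_meets (hRd w x) h.1
    obtain ⟨r', hr', y', hy', hx'⟩ := exists_of_meets (hRd w x')
      (down_meets _ _ h.2 r hr)
    have h1 := hr' _ _ hy
    rw [hy'] at h1
    have h2 : y' = y := by simpa using h1
    refine Subtype.ext ?_
    rw [hx, hx', h2]
  · refine mem_fex.2 fun q _ => ?_
    have h1 : ∃ w, q.f (γ, w) = none := by
      by_contra hcon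
      push Not at hcon
      have h2 : (Set.univ : Set W).Countable := by
        have h3 : (Set.univ : Set W) ⊆ Prod.snd '' {x | q.f x ≠ none} := fun w _ =>
          ⟨(γ, w), hcon w, rfl⟩
        exact (q.cnt.image _).mono h3
      obtain ⟨w, hw⟩ := hW.bdd _ h2
      exact lt_irrefl _ (hw w trivial)
    obtain ⟨w, hw⟩ := h1
    obtain ⟨r, hr, hx⟩ := hval q w hw x
    exact ⟨r, hr, w, meets_of_mem hx⟩

end Pool.Agent.H833R3.Levy
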