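import Mathlib

set_option autoImplicit false

/-!
# The Levy collapse of `K` to the successor of `W`

`K` is a well-ordered set (of order type an inaccessible cardinal) and `W` a set (of order type
`ω₁`). A condition is a countable partial function from `K × W` to `K` whose value at `(γ, i)` is
smaller than `γ`.
-/

namespace Pool.Agent.H833R3.Levy

open Cardinal Set

/-- A condition of the Levy collapse: a countable partial function from `K × W` to `K` whose value
at `(γ, i)` is smaller than `γ`. -/
structure Cond (K W : Type) [LinearOrder K] where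
  /-- the partial function -/
  f : K × W → Option K
  cnt : {x | f x ≠ none}.Countable
  lt : ∀ x y, f x = some y → y < x.1

variable {K W : Type} [LinearOrder K]

/-- `p ≤ q` means that `p` extends `q`. -/
instance : Preorder (Cond K W) where
  le p q := ∀ x y, q.f x = some y → p.f x = some y
  le_refl _ _ _ h := h
  le_trans _ _ _ hab hbc x y h := hab x y (hbc x y h)

theorem le_def {p q : Cond K W} : p ≤ q ↔ ∀ x y, q.f x = some y → p.f x = some y := Iff.rfl

/-- the empty condition -/
def emp : Cond K W := ⟨fun _ => none, by simp, by simp⟩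

open Classical in
/-- the part of `p` below `γ` -/
noncomputable def trunc (γ : K) (p : Cond K W) : Cond K W where
  f x := if x.1 < γ then p.f x else none
  cnt := p.cnt.mono (by
    intro x hx
    simp only [mem_ofPred_eq] at hx ⊢
    intro h
    exact hx (by rw [h]; simp))
  lt x y h := by
    split_ifs at h with h1
    exact p.lt x y h

theorem trunc_some {γ : K} {p : Cond K W} {x : K × W} {y : K} :
    (trunc γ p).f x = some y ↔ x.1 < γ ∧ p.f x = some y := by
  unfold trunc
  simp only
  split_ifs with h <;> simp [h]

theorem le_trunc (γ : K) (p : Cond K W) : p ≤ trunc γ p := fun _ _ h => (trunc_some.1 h).2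

theorem trunc_mono {γ : K} {p q : Cond K W} (h : p ≤ q) : trunc γ p ≤ trunc γ q := fun x y hx =>
  trunc_some.2 ⟨(trunc_some.1 hx).1, h x y (trunc_some.1 hx).2⟩

open Classical in
/-- the union of `p` and `q`, where `p` decides in case of conflict -/
noncomputable def join (p q : Cond K W) : Cond K W where
  f x := if p.f x = none then q.f x else p.f x
  cnt := (p.cnt.union q.cnt).mono (by
    intro x hx
    simp only [mem_ofPred_eq] at hx
    by_cases h : p.f x = none
    · rw [if_pos h] at hx
      exact Or.inr hx
    · exact Or.inl h)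
  lt x y h := by
    split_ifs at h with h1
    · exact q.lt x y h
    · exact p.lt x y h

theorem join_le_left (p q : Cond K W) : join p q ≤ p := by
  intro x y h
  unfold join
  simp only
  rw [if_neg (by rw [h]; simp), h]

/-- `p` and `q` agree where both are defined -/
def Compat (p q : Cond K W) : Prop := ∀ x y z, p.f x = some y → q.f x = some z → y = z

theorem join_le_right {p q : Cond K W} (h : Compat p q) : join p q ≤ q := by
  intro x z hz
  unfold join
  simp only
  split_ifs with h1
  · exact hz
  · obtain ⟨y, hy⟩ := Option.ne_none_iff_exists'.1 h1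
    rw [hy, h x y z hy hz]

theorem join_some {p q : Cond K W} {x : K × W} {y : K} (h : (join p q).f x = some y) :
    p.f x = some y ∨ q.f x = some y := by
  unfold join at h
  simp only at h
  split_ifs at h with h1
  · exact Or.inr h
  · exact Or.inl h

theorem compat_of_le {p q r : Cond K W} (h1 : r ≤ p) (h2 : r ≤ q) : Compat p q := by
  intro x y z hy hz
  have := (h1 x y hy).symm.trans (h2 x z hz)
  simpa using this

theorem le_join {p q r : Cond K W} (h1 : r ≤ p) (h2 : r ≤ q) : r ≤ join p q := by
  intro x y h
  rcases join_some h with h | h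
  · exact h1 x y h
  · exact h2 x y h

open Classical in
/-- the union of a sequence of conditions -/
noncomputable def lim (s : ℕ → Cond K W) : Cond K W where
  f x := if h : ∃ y, ∃ n, (s n).f x = some y then some h.choose else none
  cnt := (Set.countable_iUnion fun n => (s n).cnt).mono (by
    intro x hx
    simp only [mem_ofPred_eq] at hx
    split_ifs at hx with h
    · obtain ⟨y, n, hn⟩ := h
      exact Set.mem_iUnion.2 ⟨n, by simp [hn]⟩
    · exact absurd rfl hx)
  lt x y h := by
    split_ifs at h with h1
    obtain ⟨n, hn⟩ := h1.choose_spec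
    have : h1.choose = y := by simpa using h
    rw [this] at hn
    exact (s n).lt x y hn

theorem lim_some {s : ℕ → Cond K W} {x : K × W} {y : K} (h : (lim s).f x = some y) :
    ∃ n, (s n).f x = some y := by
  unfold lim at h
  simp only at h
  split_ifs at h with h1
  obtain ⟨n, hn⟩ := h1.choose_spec
  have : h1.choose = y := by simpa using h
  rw [this] at hn
  exact ⟨n, hn⟩

theorem seq_mono {s : ℕ → Cond K W} (hs : ∀ n, s (n + 1) ≤ s n) {m n : ℕ} (h : m ≤ n) :
    s n ≤ s m := by
  induction n, h using Nat.le_induction with
  | base => exact le_rfl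
  | succ n _ ih => exact (hs n).trans ih

theorem lim_le {s : ℕ → Cond K W} (hs : ∀ n, s (n + 1) ≤ s n) (n : ℕ) : lim s ≤ s n := by
  intro x y h
  have h1 : ∃ y, ∃ n, (s n).f x = some y := ⟨y, n, h⟩
  unfold lim
  simp only
  rw [dif_pos h1]
  obtain ⟨m, hm⟩ := h1.choose_spec
  have h2 := seq_mono hs (le_max_left m n) x _ hm
  have h3 := seq_mono hs (le_max_right m n) x _ h
  rw [h2] at h3
  exact h3

theorem le_lim {s : ℕ → Cond K W} {p : Cond K W} (h : ∀ n, p ≤ s n) : p ≤ lim s := by
  intro x y hx
  obtain ⟨n, hn⟩ := lim_some hx
  exact h n x y hn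

theorem le_trunc_lim {s : ℕ → Cond K W} {p : Cond K W} {γ : K} (h : ∀ n, p ≤ trunc γ (s n)) :
    p ≤ trunc γ (lim s) := by
  intro x y hx
  obtain ⟨hx1, hx2⟩ := trunc_some.1 hx
  obtain ⟨n, hn⟩ := lim_some hx2
  exact h n x y (trunc_some.2 ⟨hx1, hn⟩)

theorem le_trunc_join {a b p : Cond K W} {γ : K} (h1 : p ≤ trunc γ a) (h2 : p ≤ trunc γ b) :
    p ≤ trunc γ (join a b) := by
  intro x y hx
  obtain ⟨hx1, hx2⟩ := trunc_some.1 hx
  rcases join_some hx2 with h | h
  · exact h1 x y (trunc_some.2 ⟨hx1, h⟩)
  · exact h2 x y (trunc_some.2 ⟨hx1, h⟩)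

/-- the domain of `p` lies below `γ` -/
def Supp (γ : K) (p : Cond K W) : Prop := ∀ x, p.f x ≠ none → x.1 < γ

theorem compat_of_supp {γ : K} {p q : Cond K W} (hp : Supp γ p) (h : p ≤ trunc γ q) :
    Compat p q := by
  intro x y z hy hz
  have h1 : x.1 < γ := hp x (by rw [hy]; simp)
  have h2 := h x z (trunc_some.2 ⟨h1, hz⟩)
  rw [hy] at h2
  simpa using h2

theorem supp_trunc (γ : K) (p : Cond K W) : Supp γ (trunc γ p) := by
  intro x hx
  obtain ⟨y, hy⟩ := Option.ne_none_iff_exists'.1 hx
  exact (trunc_some.1 hy).1

/-- two conditions are compatible if they are so below `γ`, and one of them lives below `γ` -/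
theorem exists_common {γ : K} {r s : Cond K W} (hr : Supp γ r) (h : r ≤ trunc γ s) :
    ∃ t, t ≤ r ∧ t ≤ s :=
  ⟨join r s, join_le_left r s, join_le_right (compat_of_supp hr h)⟩

open Classical in
/-- `p` together with the value `y` at `x` (unless `p` has a value there) -/
noncomputable def add (p : Cond K W) (x : K × W) (y : K) (h : y < x.1) : Cond K W :=
  join p ⟨fun z => if z = x then some y else none,
    (Set.countable_singleton x).mono (by
      intro z hz
      simp only [mem_ofPred_eq] at hz
      by_contra hne
      exact hz (if_neg hne)),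
    by
      intro z w hz
      split_ifs at hz with h1
      have : y = w := by simpa using hz
      rw [← this, h1]
      exact h⟩

theorem add_le (p : Cond K W) (x : K × W) (y : K) (h : y < x.1) : add p x y h ≤ p :=
  join_le_left _ _

theorem add_apply {p : Cond K W} {x : K × W} {y : K} {h : y < x.1} (hp : p.f x = none) :
    (add p x y h).f x = some y := by
  unfold add join
  simp [hp]

end Pool.Agent.H833R3.Levy
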