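import Pool.Agent.H376R3.PD.Defs

set_option autoImplicit false

universe u

namespace Pool.Agent.H833R3.PD

open Cardinal Pool.Agent.H376R3.PC Pool.Agent.H376R3.PD

theorem pd3 : TaskPD3.{u} := by
  classical
  intro J κ hJ hκ
  obtain ⟨Δ, d, hΔ, hd⟩ := hJ
  refine ⟨Δ × ULift.{u} (ℕ → ℕ → ℕ), fun p y =>
    if h : ∃ k, p.2.down k = d p.1 ∘ y then Nat.find h else 0, ?_, ?_⟩
  · have h1 : #(ULift.{u} (ℕ → ℕ → ℕ)) = 𝔠 := by
      simp
    rw [mk_prod, lift_id, lift_id, h1]
    calc #Δ * 𝔠 ≤ κ * κ := mul_le_mul' hΔ hκ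
      _ = κ := mul_eq_self (aleph0_le_continuum.trans hκ)
  · intro C hC
    rcases C.eq_empty_or_nonempty with rfl | hne
    · obtain ⟨δ, _⟩ := hd ∅ Set.countable_empty
      exact ⟨(δ, ⟨fun _ _ => 0⟩), Set.injOn_empty _⟩
    · obtain ⟨δ, hδ⟩ := hd (⋃ y ∈ C, Set.range y) (hC.biUnion fun y _ => Set.countable_range y)
      obtain ⟨e, he⟩ := hC.exists_eq_range hne
      refine ⟨(δ, ⟨fun k => d δ ∘ e k⟩), ?_⟩
      intro y hy y' hy' heq
      have hex : ∀ y ∈ C, ∃ k, d δ ∘ e k = d δ ∘ y := by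
        intro y hy
        rw [he] at hy
        obtain ⟨k, rfl⟩ := hy
        exact ⟨k, rfl⟩
      have h1 := hex y hy
      have h2 := hex y' hy'
      simp only [h1, h2, dif_pos] at heq
      have h3 := Nat.find_spec h1
      have h4 := Nat.find_spec h2
      rw [heq] at h3
      have h5 : d δ ∘ y = d δ ∘ y' := h3.symm.trans h4
      funext n
      apply hδ
      · exact Set.mem_biUnion hy ⟨n, rfl⟩
      · exact Set.mem_biUnion hy' ⟨n, rfl⟩
      · exact congrFun h5 n

theorem pd4 : TaskPD4.{u} := by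
  classical
  intro B J E hE hEc hJ hB
  have : Nonempty J := by
    rw [← mk_ne_zero_iff]
    intro h
    rw [h] at hJ
    exact absurd hJ (not_le.2 aleph0_pos)
  have hB' : #B ≤ #(J → Bool) := by
    have h0 : #(J → Bool) = 2 ^ #J := by simp
    rw [h0]
    exact hB
  obtain ⟨ι⟩ := hB'
  refine ⟨(ℕ → J) × ULift.{u} (ℕ → (ℕ → Bool) × E), fun p b =>
    if h : ∃ k, (p.2.down k).1 = ι b ∘ p.1 then (p.2.down (Nat.find h)).2
      else Classical.arbitrary E, ?_, ?_⟩
  · have h1 : #(ULift.{u} (ℕ → (ℕ → Bool) × E)) ≤ 𝔠 := by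
      rw [mk_uLift]
      have h2 : #(ℕ → (ℕ → Bool) × E) ≤ 𝔠 := by
        have h3 : #((ℕ → Bool) × E) ≤ 𝔠 := by
          rw [mk_prod, lift_id, lift_id]
          have h4 : #(ℕ → Bool) = 𝔠 := by simp
          rw [h4]
          calc 𝔠 * #E ≤ 𝔠 * 𝔠 := mul_le_mul_right hEc _
            _ = 𝔠 := continuum_mul_self
        rw [← power_def, mk_nat]
        calc #((ℕ → Bool) × E) ^ ℵ₀ ≤ 𝔠 ^ ℵ₀ := power_le_power_right h3
          _ = 𝔠 := continuum_power_aleph0
      have := lift_le.{u}.2 h2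
      simpa using this
    have h5 : 𝔠 ≤ #(ℕ → J) := by
      rw [← two_power_aleph0]
      have : #(ℕ → J) = #J ^ ℵ₀ := by
        simp
      rw [this]
      exact power_le_power_right ((natCast_lt_aleph0 (n := 2)).le.trans hJ)
    rw [mk_prod, lift_id, lift_id]
    calc #(ℕ → J) * #(ULift.{u} (ℕ → (ℕ → Bool) × E)) ≤ #(ℕ → J) * #(ℕ → J) :=
          mul_le_mul_right (h1.trans h5) _
      _ = #(ℕ → J) := mul_eq_self (aleph0_le_continuum.trans h5)
  · intro C hC g
    rcases C.eq_empty_or_nonempty with rfl | hne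
    · exact ⟨(fun _ => Classical.arbitrary J, ⟨fun _ => (fun _ => true, Classical.arbitrary E)⟩),
        fun b hb => absurd hb (Set.notMem_empty b)⟩
    · obtain ⟨e, he⟩ := hC.exists_eq_range hne
      -- a separating sequence
      have hsep : ∀ p : ℕ × ℕ, ∃ j : J, e p.1 ≠ e p.2 → ι (e p.1) j ≠ ι (e p.2) j := by
        intro p
        by_cases h : e p.1 = e p.2
        · exact ⟨Classical.arbitrary J, fun h' => absurd h h'⟩
        · have h1 : ι (e p.1) ≠ ι (e p.2) := fun h' => h (ι.injective h')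
          obtain ⟨j, hj⟩ := Function.ne_iff.1 h1
          exact ⟨j, fun _ => hj⟩
      choose j hj using hsep
      set a : ℕ → J := fun n => j (Nat.unpair n) with ha
      have hinj : ∀ k l, ι (e k) ∘ a = ι (e l) ∘ a → e k = e l := by
        intro k l hkl
        by_contra hne'
        have h1 := congrFun hkl (Nat.pair k l)
        simp only [Function.comp, ha, Nat.unpair_pair] at h1
        exact hj (k, l) hne' h1
      refine ⟨(a, ⟨fun k => (ι (e k) ∘ a, g (e k))⟩), ?_⟩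
      intro b hb
      rw [he] at hb
      obtain ⟨l, rfl⟩ := hb
      have hex : ∃ k, ι (e k) ∘ a = ι (e l) ∘ a := ⟨l, rfl⟩
      simp only [hex, dif_pos]
      rw [hinj _ _ (Nat.find_spec hex)]

end Pool.Agent.H833R3.PD
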