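import Pool.Agent.H376R3.PD.Defs

set_option autoImplicit false

universe u

namespace Pool.Agent.H833R3.PD

open Cardinal Pool.Agent.H376R3.PC Pool.Agent.H376R3.PD

/-- Extension of homomorphisms along a map to a `Baer` module, over `ℤ`. -/
theorem baer_ext {G P D : Type*} [AddCommGroup G] [AddCommGroup P] [AddCommGroup D]
    (hD : Module.Baer ℤ D) (Φ : P →+ G) (Ψ : P →+ D) (h : ∀ x, Φ x = 0 → Ψ x = 0) :
    ∃ ρ : G →+ D, ∀ x, ρ (Φ x) = Ψ x := by
  let g : (P ⧸ Φ.ker) →+ D := QuotientAddGroup.lift Φ.ker Ψ (fun x hx => h x hx)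
  obtain ⟨χ, hχ⟩ := hD.extension_property_addMonoidHom (QuotientAddGroup.kerLift Φ)
    (QuotientAddGroup.kerLift_injective Φ) g
  refine ⟨χ, fun x => ?_⟩
  exact DFunLike.congr_fun hχ (x : P ⧸ Φ.ker)

theorem surj_finsupp {B D : Type*} [AddCommGroup D] (n : ℤ)
    (h : Function.Surjective fun v : D => n • v) :
    Function.Surjective fun f : B →₀ D => n • f := by
  classical
  intro f
  choose c hc using h
  refine ⟨f.mapRange (fun v => if v = 0 then 0 else c v) (by simp), ?_⟩
  ext b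
  simp only [Finsupp.smul_apply, Finsupp.mapRange_apply]
  by_cases hb : f b = 0
  · simp [hb]
  · simp only [hb, if_false]
    exact hc (f b)

theorem surj_V0 (n : ℤ) (hn : n ≠ 0) : Function.Surjective fun v : V0 => n • v := by
  rintro ⟨x, y⟩
  have hn' : (n : ℚ) ≠ 0 := by exact_mod_cast hn
  obtain ⟨y, rfl⟩ := QuotientAddGroup.mk_surjective y
  refine ⟨(x / n, (((y / n : ℚ)) : AddCircle (1 : ℚ))), ?_⟩
  refine Prod.ext ?_ ?_
  · simp only [Prod.smul_mk, zsmul_eq_mul]
    field_simp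
  · simp only [Prod.smul_mk]
    rw [← AddCircle.coe_zsmul, zsmul_eq_mul, mul_div_cancel₀ _ hn']

theorem pd6 : TaskPD6.{u} := by
  classical
  refine ⟨?_, ?_⟩
  · intro G P B _ _ Φ Ψ h
    let _ : DivisibleBy (B →₀ V0) ℤ := divisibleByOfSMulRightSurj _ _ (fun {n} hn =>
      surj_finsupp n (surj_V0 n hn))
    exact baer_ext (Module.Baer.of_divisible _) Φ Ψ h
  · intro n
    rcases Nat.eq_zero_or_pos n with rfl | hn
    · refine ⟨(1, 0), by simp, ?_⟩
      intro m hm
      have := congrArg Prod.fst hm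
      simp at this
      simp [this]
    · have h1 : addOrderOf (((1 : ℚ) / n : ℚ) : AddCircle (1 : ℚ)) = n :=
        AddCircle.addOrderOf_period_div hn
      refine ⟨(0, (((1 : ℚ) / n : ℚ) : AddCircle (1 : ℚ))), ?_, ?_⟩
      · have := addOrderOf_nsmul_eq_zero (((1 : ℚ) / n : ℚ) : AddCircle (1 : ℚ))
        rw [h1] at this
        refine Prod.ext ?_ ?_
        · simp
        · exact this
      · intro m hm
        have h2 := congrArg Prod.snd hm
        have := addOrderOf_dvd_iff_zsmul_eq_zero.2 h2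
        rwa [h1] at this

/-- Division in `ZMod n`. -/
theorem zmod_div (n : ℕ) [NeZero n] (a : ZMod n) :
    ∃ c : ZMod n → ZMod n, c 0 = 0 ∧
      ∀ y : ZMod n, (∀ r : ZMod n, r * a = 0 → r * y = 0) → a * c y = y := by
  set d := Nat.gcd a.val n with hd
  have hdn : d ∣ n := Nat.gcd_dvd_right _ _
  have hda : d ∣ a.val := Nat.gcd_dvd_left _ _
  have hn0 : n ≠ 0 := NeZero.ne n
  have hd0 : 0 < d := Nat.gcd_pos_of_pos_right _ (Nat.pos_of_ne_zero hn0)
  refine ⟨fun y => ((Nat.gcdA a.val n : ℤ) : ZMod n) * ((y.val / d : ℕ) : ZMod n), by simp, ?_⟩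
  intro y hy
  obtain ⟨e, he⟩ := hdn
  obtain ⟨f, hf⟩ := hda
  have h1 : (e : ZMod n) * a = 0 := by
    have : ((e * a.val : ℕ) : ZMod n) = 0 := by
      rw [ZMod.natCast_eq_zero_iff]
      refine ⟨f, ?_⟩
      calc e * a.val = e * (d * f) := by rw [← hf]
        _ = (d * e) * f := by ring
        _ = n * f := by rw [← he]
    simpa using this
  have h2 := hy _ h1
  have h3 : d ∣ y.val := by
    have h4 : ((e * y.val : ℕ) : ZMod n) = 0 := by simpa using h2
    rw [ZMod.natCast_eq_zero_iff] at h4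
    obtain ⟨g, hg⟩ := h4
    have he0 : 0 < e := by
      rcases Nat.eq_zero_or_pos e with h | h
      · exfalso; apply hn0; rw [he, h, mul_zero]
      · exact h
    refine ⟨g, ?_⟩
    apply Nat.eq_of_mul_eq_mul_left he0
    calc e * y.val = n * g := hg
      _ = d * e * g := by rw [← he]
      _ = e * (d * g) := by ring
  have h5 : a * ((Nat.gcdA a.val n : ℤ) : ZMod n) = (d : ZMod n) := by
    have h6 := Nat.gcd_eq_gcd_ab a.val n
    have h7 := congrArg (fun z : ℤ => (z : ZMod n)) h6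
    simp only [Int.cast_natCast, Int.cast_add, Int.cast_mul] at h7
    rw [ZMod.natCast_self, zero_mul, add_zero, ZMod.natCast_zmod_val] at h7
    exact h7.symm
  rw [← mul_assoc, h5, ← Nat.cast_mul, Nat.mul_div_cancel' h3, ZMod.natCast_zmod_val]

theorem baer_zmod (n : ℕ) [NeZero n] (B : Type u) : Module.Baer (ZMod n) (B →₀ ZMod n) := by
  classical
  intro I g
  have hpr : I.IsPrincipal := by
    have : IsPrincipalIdealRing (ZMod n) :=
      IsPrincipalIdealRing.of_surjective (Int.castRingHom (ZMod n)) ZMod.intCast_surjective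
    exact this.principal I
  obtain ⟨a, ha⟩ := hpr.principal
  have haI : a ∈ I := by
    rw [ha]; exact Submodule.mem_span_singleton_self a
  obtain ⟨c, hc0, hc⟩ := zmod_div n a
  set z : B →₀ ZMod n := (g ⟨a, haI⟩).mapRange c hc0 with hz
  have haz : a • z = g ⟨a, haI⟩ := by
    ext b
    rw [Finsupp.smul_apply, hz, Finsupp.mapRange_apply, smul_eq_mul]
    apply hc
    intro r hr
    have h1 : r • g ⟨a, haI⟩ = 0 := by
      rw [← map_smul]
      have : r • (⟨a, haI⟩ : I) = 0 := Subtype.ext (by simpa using hr)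
      rw [this, map_zero]
    have := DFunLike.congr_fun h1 b
    simpa using this
  refine ⟨LinearMap.toSpanSingleton (ZMod n) _ z, ?_⟩
  intro x hx
  have hx' := hx
  rw [ha, Submodule.mem_span_singleton] at hx'
  obtain ⟨r, hr⟩ := hx'
  subst hr
  rw [LinearMap.toSpanSingleton_apply, smul_assoc, haz, ← map_smul]
  congr 1

theorem pd5 : TaskPD5.{u} := by
  classical
  intro G P B _ _ n hn Φ Ψ h
  have : NeZero n := ⟨hn.ne'⟩
  let N : AddSubgroup G := (nsmulAddMonoidHom (α := G) n).range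
  have hN : ∀ x : G, n • x ∈ N := fun x => ⟨x, rfl⟩
  let _ : Module (ZMod n) (G ⧸ N) := QuotientAddGroup.zmodModule hN
  let Φ' : P →+ (G ⧸ N) := (QuotientAddGroup.mk' N).comp Φ
  have hker : ∀ x, Φ' x = 0 → Ψ x = 0 := by
    intro x hx
    have h1 : Φ x ∈ N := by
      rw [← QuotientAddGroup.eq_zero_iff]
      exact hx
    obtain ⟨g, hg⟩ := h1
    exact h x g hg.symm
  have hnP : ∀ x : P, n • x ∈ Φ'.ker := by
    intro x
    rw [AddMonoidHom.mem_ker, map_nsmul]
    have h2 : ((n : ZMod n)) • Φ' x = 0 := by rw [ZMod.natCast_self, zero_smul]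
    rwa [Nat.cast_smul_eq_nsmul] at h2
  let _ : Module (ZMod n) (P ⧸ Φ'.ker) := QuotientAddGroup.zmodModule hnP
  let g : (P ⧸ Φ'.ker) →+ (B →₀ ZMod n) := QuotientAddGroup.lift Φ'.ker Ψ (fun x hx => hker x hx)
  obtain ⟨χ, hχ⟩ := (baer_zmod n B).extension_property
    ((QuotientAddGroup.kerLift Φ').toZModLinearMap n)
    (QuotientAddGroup.kerLift_injective Φ') (g.toZModLinearMap n)
  refine ⟨χ.toAddMonoidHom.comp (QuotientAddGroup.mk' N), fun x => ?_⟩
  exact LinearMap.congr_fun hχ (x : P ⧸ Φ'.ker)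

end Pool.Agent.H833R3.PD
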